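import Mathlib

set_option autoImplicit false

/-!
# A small asymmetric 4-vertex-critical graph
-/

namespace Pool.Agent.H17.UG

/-- the edges (in one direction) -/
def wl : List (Fin 9 × Fin 9) :=
  [(0, 2), (0, 3), (0, 5), (0, 6), (0, 7), (0, 8), (1, 4), (1, 6), (1, 8), (2, 3), (2, 7), (3, 5),
    (4, 5), (4, 6), (5, 6), (7, 8)]

/-- The adjacency relation of the graph with 9 vertices and 16 edges. -/
def W (i j : Fin 9) : Prop := (i, j) ∈ wl ∨ (j, i) ∈ wl

instance : DecidableRel W := fun i j => inferInstanceAs (Decidable (_ ∨ _))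

/-- The three special vertices. -/
def rt : Fin 3 → Fin 9 := ![3, 6, 8]

theorem W_symm (i j : Fin 9) (h : W i j) : W j i := h.symm

theorem W_irrefl (i : Fin 9) : ¬ W i i := by
  revert i
  decide

theorem rt_injective : Function.Injective rt := by
  intro i j
  revert i j
  decide

theorem rt_indep (i j : Fin 3) : ¬ W (rt i) (rt j) := by
  revert i j
  decide

set_option synthInstance.maxSize 2000 in
theorem not_colour (c : Fin 9 → Fin 3) : ∃ i j, W i j ∧ c i = c j := by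
  by_contra hcon
  push Not at hcon
  have key : ∀ c0 c6 : Fin 3, c0 ≠ c6 → ∀ c5, c0 ≠ c5 → c5 ≠ c6 → ∀ c3, c0 ≠ c3 → c3 ≠ c5 →
      ∀ c2, c0 ≠ c2 → c2 ≠ c3 → ∀ c7, c0 ≠ c7 → c2 ≠ c7 → ∀ c8, c0 ≠ c8 → c7 ≠ c8 →
      ∀ c4, c4 ≠ c5 → c4 ≠ c6 → ∀ c1, c1 ≠ c4 → c1 ≠ c6 → ¬ c1 ≠ c8 := by
    decide
  exact key (c 0) (c 6) (hcon _ _ (by decide)) (c 5) (hcon _ _ (by decide))
    (hcon _ _ (by decide)) (c 3) (hcon _ _ (by decide)) (hcon _ _ (by decide)) (c 2)
    (hcon _ _ (by decide)) (hcon _ _ (by decide)) (c 7) (hcon _ _ (by decide))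
    (hcon _ _ (by decide)) (c 8) (hcon _ _ (by decide)) (hcon _ _ (by decide)) (c 4)
    (hcon _ _ (by decide)) (hcon _ _ (by decide)) (c 1) (hcon _ _ (by decide))
    (hcon _ _ (by decide)) (hcon _ _ (by decide))

/-- 3-colourings of the vertex-deleted subgraphs -/
def kap : Fin 9 → Fin 9 → Fin 3 :=
  ![![0, 0, 0, 1, 1, 0, 2, 1, 2], ![0, 0, 1, 2, 0, 1, 2, 2, 1], ![0, 1, 0, 2, 0, 1, 2, 1, 2],
    ![0, 1, 2, 0, 0, 1, 2, 1, 2], ![0, 0, 1, 2, 0, 1, 2, 2, 1], ![0, 0, 1, 2, 1, 0, 2, 2, 1],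
    ![0, 0, 1, 2, 2, 1, 0, 2, 1], ![0, 1, 1, 2, 0, 1, 2, 0, 2], ![0, 1, 1, 2, 0, 1, 2, 2, 0]]

theorem kap_proper (v i j : Fin 9) (h : W i j) (hi : i ≠ v) (hj : j ≠ v) :
    kap v i ≠ kap v j := by
  revert v i j
  decide

theorem W_connected (D : Set (Fin 9)) (h1 : D.Nonempty) (h2 : D ≠ Set.univ) :
    ∃ i j, i ∈ D ∧ j ∉ D ∧ W i j := by
  classical
  by_contra hcon
  push Not at hcon
  obtain ⟨u, hu⟩ := h1
  obtain ⟨v, hv⟩ := (Set.ne_univ_iff_exists_notMem D).1 h2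
  obtain ⟨i, j, hij, hc⟩ := not_colour (fun w => if w ∈ D then kap v w else kap u w)
  by_cases hi : i ∈ D <;> by_cases hj : j ∈ D
  · simp only [hi, hj, if_true] at hc
    exact kap_proper v i j hij (fun h => hv (h ▸ hi)) (fun h => hv (h ▸ hj)) hc
  · exact hcon i j hi hj hij
  · exact hcon j i hj hi (W_symm _ _ hij)
  · simp only [hi, hj, if_false] at hc
    exact kap_proper u i j hij (fun h => hi (h ▸ hu)) (fun h => hj (h ▸ hu)) hc

/-- the invariant -/
def inv : ℕ → Fin 9 → ℕ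
  | 0, _ => 1
  | n + 1, i => ∑ j, if W i j then (inv n j) ^ 2 else 0

/-- the values of the third invariant -/
def inv3 : Fin 9 → ℕ := ![22269, 9497, 11261, 12440, 10956, 14926, 12361, 10456, 8696]

theorem inv1_eq : inv 1 = ![6, 3, 3, 3, 3, 4, 4, 3, 3] := by
  decide +kernel

theorem inv2_eq : inv 2 = ![68, 34, 54, 61, 41, 70, 70, 54, 54] := by
  have h : ∀ i, inv 2 i = ∑ j, if W i j then (inv 1 j) ^ 2 else 0 := fun i => rfl
  funext i
  rw [h, inv1_eq]
  revert i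
  decide +kernel

theorem inv3_eq : inv 3 = inv3 := by
  have h : ∀ i, inv 3 i = ∑ j, if W i j then (inv 2 j) ^ 2 else 0 := fun i => rfl
  funext i
  rw [h, inv2_eq]
  revert i
  decide +kernel

theorem inv3_injective : Function.Injective inv3 := by
  intro i j
  revert i j
  decide +kernel

theorem W_rigid (σ : Fin 9 → Fin 9) (h1 : Function.Injective σ)
    (h2 : ∀ i j, W i j → W (σ i) (σ j)) (i : Fin 9) : σ i = i := by
  classical
  let S := {p : Fin 9 × Fin 9 // W p.1 p.2}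
  let f : S → S := fun p => ⟨(σ p.1.1, σ p.1.2), h2 _ _ p.2⟩
  have hf : Function.Injective f := by
    rintro ⟨⟨a, b⟩, h⟩ ⟨⟨a', b'⟩, h'⟩ hab
    have h3 := congrArg Subtype.val hab
    have h4 := Prod.mk.inj h3
    exact Subtype.ext (Prod.ext (h1 h4.1) (h1 h4.2))
  have hsurj : Function.Surjective f := Finite.surjective_of_injective hf
  have hiff : ∀ i j, W i j ↔ W (σ i) (σ j) := by
    intro i j
    refine ⟨h2 i j, fun h => ?_⟩
    obtain ⟨⟨⟨a, b⟩, hab⟩, he⟩ := hsurj ⟨(σ i, σ j), h⟩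
    have h4 := Prod.mk.inj (congrArg Subtype.val he)
    rw [← h1 h4.1, ← h1 h4.2]
    exact hab
  let e : Fin 9 ≃ Fin 9 := Equiv.ofBijective σ ⟨h1, Finite.surjective_of_injective h1⟩
  have hinv : ∀ n i, inv n (σ i) = inv n i := by
    intro n
    induction n with
    | zero => intro i; rfl
    | succ n ih =>
      intro i
      show (∑ j, if W (σ i) j then (inv n j) ^ 2 else 0) = ∑ j, if W i j then (inv n j) ^ 2 else 0
      rw [← Equiv.sum_comp e]
      apply Finset.sum_congr rfl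
      intro j _
      have h3 : e j = σ j := rfl
      rw [h3, ih j]
      by_cases h : W i j
      · rw [if_pos h, if_pos ((hiff i j).1 h)]
      · rw [if_neg h, if_neg (fun h' => h ((hiff i j).2 h'))]
  have h5 := hinv 3 i
  rw [inv3_eq] at h5
  exact inv3_injective h5

end Pool.Agent.H17.UG
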