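import Mathlib
import Pool.Agent.H17.UG.W

set_option autoImplicit false

/-!
# Free amalgamation and the pieces of the graph `W`
-/

namespace Pool.Agent.H17.UG

open Set

/-- the map `g` can be changed on `Z` to become a homomorphism on the edges of `W` which meet
`Z` -/
def PZ {X : Type} (E : X → X → Prop) (Z : Set (Fin 9)) (g : Fin 9 → X) : Prop :=
  ∃ h : Fin 9 → X, (∀ u, u ∉ Z → h u = g u) ∧ ∀ u ∈ Z, ∀ v, W u v → E (h u) (h v)

/-- `x` has the role `i`: it is the image of the `i`-th special vertex under a homomorphism of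
the graph `W`. -/
def Rol {X : Type} (E : X → X → Prop) (i : Fin 3) (x : X) : Prop :=
  ∃ h : Fin 9 → X, (∀ u v, W u v → E (h u) (h v)) ∧ h (rt i) = x

theorem compl_ne_univ (i : Fin 3) : ({rt i}ᶜ : Set (Fin 9)) ≠ univ := by
  intro h
  have : rt i ∈ ({rt i}ᶜ : Set (Fin 9)) := by rw [h]; trivial
  exact this rfl

theorem rol_iff {X : Type} {E : X → X → Prop} (hE : ∀ x y, E x y → E y x) (i : Fin 3) (x : X) :
    Rol E i x ↔ PZ E {rt i}ᶜ (fun _ => x) := by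
  constructor
  · rintro ⟨h, h1, h2⟩
    refine ⟨h, fun u hu => ?_, fun u _ v huv => h1 u v huv⟩
    have : u = rt i := by
      by_contra hne
      exact hu hne
    rw [this, h2]
  · rintro ⟨h, h1, h2⟩
    refine ⟨h, fun u v huv => ?_, h1 _ (fun h => h rfl)⟩
    by_cases hu : u = rt i
    · have hv : v ∈ ({rt i}ᶜ : Set (Fin 9)) := by
        intro hv
        have hv' : v = rt i := hv
        rw [hu, hv'] at huv
        exact W_irrefl _ huv
      exact hE _ _ (h2 v hv u (W_symm _ _ huv))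
    · exact h2 u hu v huv

theorem PZ.mono {X Y : Type} {E : X → X → Prop} {F : Y → Y → Prop} (f : X → Y)
    (hf : ∀ x y, E x y → F (f x) (f y)) {Z : Set (Fin 9)} {g : Fin 9 → X} (h : PZ E Z g) :
    PZ F Z (fun u => f (g u)) := by
  obtain ⟨k, h1, h2⟩ := h
  exact ⟨fun u => f (k u), fun u hu => congrArg f (h1 u hu), fun u hu v huv => hf _ _ (h2 u hu v huv)⟩

theorem Rol.mono {X Y : Type} {E : X → X → Prop} {F : Y → Y → Prop} (f : X → Y)
    (hf : ∀ x y, E x y → F (f x) (f y)) {i : Fin 3} {x : X} (h : Rol E i x) : Rol F i (f x) := by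
  obtain ⟨k, h1, h2⟩ := h
  exact ⟨fun u => f (k u), fun u v huv => hf _ _ (h1 u v huv), congrArg f h2⟩

/-- `(Y; E)` is a free amalgam of `(X₁; E₁)` and `(X₂; E₂)` over the tuples `p₁` and `p₂`,
up to isolated points. -/
structure Amalg {X1 X2 Y I : Type} (E1 : X1 → X1 → Prop) (E2 : X2 → X2 → Prop)
    (E : Y → Y → Prop) (p1 : I → X1) (p2 : I → X2) (ι1 : X1 → Y) (ι2 : X2 → Y) : Prop where
  inj1 : Function.Injective ι1
  inj2 : Function.Injective ι2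
  glue : ∀ i, ι1 (p1 i) = ι2 (p2 i)
  shared : ∀ x1 x2, ι1 x1 = ι2 x2 → ∃ i, x1 = p1 i ∧ x2 = p2 i
  edge : ∀ a b, E a b ↔ (∃ x y, ι1 x = a ∧ ι1 y = b ∧ E1 x y) ∨
    (∃ x y, ι2 x = a ∧ ι2 y = b ∧ E2 x y)
  symm1 : ∀ x y, E1 x y → E1 y x
  symm2 : ∀ x y, E2 x y → E2 y x
  base : ∀ i j, E1 (p1 i) (p1 j) ↔ E2 (p2 i) (p2 j)
  pz : ∀ Z : Set (Fin 9), Z ≠ univ → ∀ t : Fin 9 → I,
    PZ E1 Z (fun u => p1 (t u)) ↔ PZ E2 Z (fun u => p2 (t u))

section

variable {X1 X2 Y I : Type} {E1 : X1 → X1 → Prop} {E2 : X2 → X2 → Prop}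
  {E : Y → Y → Prop} {p1 : I → X1} {p2 : I → X2} {ι1 : X1 → Y} {ι2 : X2 → Y}

theorem Amalg.symm (h : Amalg E1 E2 E p1 p2 ι1 ι2) : Amalg E2 E1 E p2 p1 ι2 ι1 where
  inj1 := h.inj2
  inj2 := h.inj1
  glue i := (h.glue i).symm
  shared x1 x2 hx := by
    obtain ⟨i, h1, h2⟩ := h.shared x2 x1 hx.symm
    exact ⟨i, h2, h1⟩
  edge a b := (h.edge a b).trans or_comm
  symm1 := h.symm2
  symm2 := h.symm1
  base i j := (h.base i j).symm
  pz Z hZ t := (h.pz Z hZ t).symm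

theorem Amalg.edge1 (h : Amalg E1 E2 E p1 p2 ι1 ι2) (x y : X1) : E (ι1 x) (ι1 y) ↔ E1 x y := by
  rw [h.edge]
  constructor
  · rintro (⟨x', y', h1, h2, h3⟩ | ⟨x', y', h1, h2, h3⟩)
    · rw [← h.inj1 h1, ← h.inj1 h2]
      exact h3
    · obtain ⟨i, rfl, rfl⟩ := h.shared _ _ h1.symm
      obtain ⟨j, rfl, rfl⟩ := h.shared _ _ h2.symm
      exact (h.base i j).2 h3
  · intro h1
    exact Or.inl ⟨x, y, rfl, rfl, h1⟩

theorem W_nbr (u : Fin 9) : ∃ v, W u v := by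
  revert u
  decide

theorem Amalg.pz1 (h : Amalg E1 E2 E p1 p2 ι1 ι2) (Z : Set (Fin 9)) (hZ : Z ≠ univ)
    (g : Fin 9 → X1) : PZ E Z (fun u => ι1 (g u)) ↔ PZ E1 Z g := by
  classical
  constructor
  swap
  · intro h1
    exact h1.mono ι1 (fun x y hxy => (h.edge1 x y).2 hxy)
  rintro ⟨k, hk1, hk2⟩
  let Z2 : Set (Fin 9) := {u | ∀ x, ι1 x ≠ k u}
  have hZ2 : ∀ u ∈ Z2, u ∈ Z := by
    intro u hu
    by_contra h1
    exact hu (g u) (hk1 u h1).symm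
  -- the vertices outside `Z2`
  have hout : ∀ u, u ∉ Z2 → ∃ x, ι1 x = k u := by
    intro u hu
    by_contra h1
    apply hu
    intro x hx
    exact h1 ⟨x, hx⟩
  by_cases hne : Z2.Nonempty
  swap
  · rw [not_nonempty_iff_eq_empty] at hne
    have hall : ∀ u, ∃ x, ι1 x = k u := fun u => hout u (by rw [hne]; exact notMem_empty u)
    choose k1 hk3 using hall
    refine ⟨k1, fun u hu => ?_, fun u hu v huv => ?_⟩
    · apply h.inj1
      rw [hk3, hk1 u hu]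
    · rw [← h.edge1, hk3, hk3]
      exact hk2 u hu v huv
  -- neighbours of `Z2`
  have hZ2u : Z2 ≠ univ := by
    intro h1
    apply hZ
    rw [eq_univ_iff_forall]
    intro u
    exact hZ2 u (by rw [h1]; trivial)
  have hnb : ∀ u ∈ Z2, ∀ v, W u v → ∃ a b, ι2 a = k u ∧ ι2 b = k v ∧ E2 a b := by
    intro u hu v huv
    rcases (h.edge _ _).1 (hk2 u (hZ2 u hu) v huv) with ⟨x, y, h1, -, -⟩ | ⟨x, y, h1, h2, h3⟩
    · exact absurd h1 (hu x)
    · exact ⟨x, y, h1, h2, h3⟩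
  have hk2' : ∀ u ∈ Z2, ∃ a, ι2 a = k u := by
    intro u hu
    obtain ⟨v, huv⟩ := W_nbr u
    obtain ⟨a, b, h1, -, -⟩ := hnb u hu v huv
    exact ⟨a, h1⟩
  obtain ⟨u0, v0, hu0, hv0, huv0⟩ := W_connected Z2 hne hZ2u
  have hsh : ∀ v, v ∉ Z2 → (∃ b, ι2 b = k v) → ∃ i, ι1 (p1 i) = k v ∧ ι2 (p2 i) = k v := by
    rintro v hv ⟨b, hb⟩
    obtain ⟨x, hx⟩ := hout v hv
    obtain ⟨i, rfl, rfl⟩ := h.shared x b (hx.trans hb.symm)
    exact ⟨i, hx, hb⟩
  obtain ⟨i0, -⟩ := hsh v0 hv0 (by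
    obtain ⟨a, b, -, h2, -⟩ := hnb u0 hu0 v0 huv0
    exact ⟨b, h2⟩)
  -- the tuple of shared points
  let t : Fin 9 → I := fun v =>
    if hv : v ∉ Z2 ∧ ∃ b, ι2 b = k v then (hsh v hv.1 hv.2).choose else i0
  have ht : ∀ v, v ∉ Z2 → (∃ b, ι2 b = k v) → ι1 (p1 (t v)) = k v ∧ ι2 (p2 (t v)) = k v := by
    intro v hv hb
    have h1 : t v = (hsh v hv hb).choose := dif_pos ⟨hv, hb⟩
    rw [h1]
    exact (hsh v hv hb).choose_spec
  let a2 : Fin 9 → X2 := fun v => if hv : v ∈ Z2 then (hk2' v hv).choose else p2 (t v)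
  have ha2 : ∀ v ∈ Z2, ι2 (a2 v) = k v := by
    intro v hv
    have h1 : a2 v = (hk2' v hv).choose := dif_pos hv
    rw [h1]
    exact (hk2' v hv).choose_spec
  have ha2' : ∀ v, v ∉ Z2 → a2 v = p2 (t v) := fun v hv => dif_neg hv
  have hP2 : PZ E2 Z2 (fun u => p2 (t u)) := by
    refine ⟨a2, ha2', fun u hu v huv => ?_⟩
    obtain ⟨a, b, h1, h2, h3⟩ := hnb u hu v huv
    have h4 : a2 u = a := h.inj2 ((ha2 u hu).trans h1.symm)
    have h5 : a2 v = b := by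
      by_cases hv : v ∈ Z2
      · exact h.inj2 ((ha2 v hv).trans h2.symm)
      · rw [ha2' v hv]
        exact h.inj2 ((ht v hv ⟨b, h2⟩).2.trans h2.symm)
    rw [h4, h5]
    exact h3
  obtain ⟨k1, hk3, hk4⟩ := (h.pz Z2 hZ2u t).2 hP2
  have hX1 : Nonempty X1 := ⟨p1 i0⟩
  choose! x1 hx1 using hout
  refine ⟨fun v => if v ∈ Z2 then k1 v else x1 v, fun u hu => ?_, fun u hu v huv => ?_⟩
  · have h1 : u ∉ Z2 := fun h1 => hu (hZ2 u h1)
    simp only [if_neg h1]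
    apply h.inj1
    rw [hx1 u h1, hk1 u hu]
  · have key : ∀ u v, u ∈ Z2 → v ∉ Z2 → W u v → E1 (k1 u) (x1 v) := by
      intro u v hu hv huv
      obtain ⟨a, b, h1, h2, h3⟩ := hnb u hu v huv
      have h4 := hk4 u hu v huv
      rw [hk3 v hv] at h4
      have h5 : x1 v = p1 (t v) := h.inj1 ((hx1 v hv).trans (ht v hv ⟨b, h2⟩).1.symm)
      rw [h5]
      exact h4
    by_cases h1 : u ∈ Z2 <;> by_cases h2 : v ∈ Z2
    · simp only [if_pos h1, if_pos h2]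
      exact hk4 u h1 v huv
    · simp only [if_pos h1, if_neg h2]
      exact key u v h1 h2 huv
    · simp only [if_neg h1, if_pos h2]
      exact h.symm1 _ _ (key v u h2 h1 (W_symm _ _ huv))
    · simp only [if_neg h1, if_neg h2]
      rw [← h.edge1, hx1 u h1, hx1 v h2]
      exact hk2 u hu v huv

theorem Amalg.esymm (h : Amalg E1 E2 E p1 p2 ι1 ι2) (a b : Y) (hab : E a b) : E b a := by
  rw [h.edge] at hab ⊢
  rcases hab with ⟨x, y, h1, h2, h3⟩ | ⟨x, y, h1, h2, h3⟩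
  · exact Or.inl ⟨y, x, h2, h1, h.symm1 _ _ h3⟩
  · exact Or.inr ⟨y, x, h2, h1, h.symm2 _ _ h3⟩

theorem Amalg.rol1 (h : Amalg E1 E2 E p1 p2 ι1 ι2) (i : Fin 3) (x : X1) :
    Rol E i (ι1 x) ↔ Rol E1 i x := by
  rw [rol_iff h.esymm, rol_iff h.symm1]
  exact h.pz1 _ (compl_ne_univ i) (fun _ => x)

end

end Pool.Agent.H17.UG
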