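import Mathlib
import Pool.Agent.H17.UG.Amal
import Pool.Agent.H17.DG.Defs

set_option autoImplicit false

/-!
# Definitions: undirected graphs as templates of the Bodirsky–Pinsker conjecture

`W` is a fixed graph with vertex set `Fin 9` and `rt 0, rt 1, rt 2` are three of its vertices.
A vertex `x` of a graph has the role `i` (`Rol E i x`) if some homomorphism from `W` to this graph
maps `rt i` to `x`.
-/

namespace Pool.Agent.H17.UG

open FirstOrder FirstOrder.Language Pool.Agent.H74.Stub
open Pool.Agent.H17.DG (Dig digStr InScope NoAlgebraicity IsHomo)

/-- The restricted templates: infinite undirected graphs without loops in the scope of the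
conjecture, without algebraicity. -/
def GraphTemplate (G : Type) (E : G → G → Prop) : Prop :=
  @InScope Dig G (digStr E) ∧ Infinite G ∧ (∀ x y, E x y → E y x) ∧ (∀ x, ¬ E x x) ∧
    NoAlgebraicity E

/-- The undirected graph of a digraph. -/
def Sym {X : Type} (F : X → X → Prop) (x y : X) : Prop := F x y ∨ F y x

/-- Links: edges from a vertex with the role `0` or `1` to a vertex with the role `2`. -/
def Lnk {X : Type} (F : X → X → Prop) (x y : X) : Prop :=
  Sym F x y ∧ (Rol (Sym F) 0 x ∨ Rol (Sym F) 1 x) ∧ Rol (Sym F) 2 y

/-- The arcs of the digraph of classes of vertices (with respect to the equivalence relation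
generated by the links): they come from the edges from a vertex with the role `0` to a vertex
with the role `1`. -/
def ArcQ {X : Type} (F : X → X → Prop) (q q' : Quot (Lnk F)) : Prop :=
  ∃ x y, Quot.mk _ x = q ∧ Quot.mk _ y = q' ∧ Sym F x y ∧ Rol (Sym F) 0 x ∧ Rol (Sym F) 1 y

/-- `CSP (G; E)` reduces to `CSP A` by the following instance transformation, given by a number
`m` and a list `l` of atomic formulas with variables from `Fin m`: a finite graph `(X; F)` has a
homomorphism to `(G; E)` if and only if the digraph `ArcQ F` has neither loops nor directed
`2`-cycles and one can assign elements of `A` to its vertices such that, for every transitive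
tournament `x 0, …, x (m - 1)` in this digraph, the elements assigned to its vertices satisfy all
the formulas of `l`. -/
def GraphReduction (G : Type) (E : G → G → Prop) (L : FirstOrder.Language.{0, 0})
    (A : Type) [L.Structure A] : Prop :=
  ∃ (m : ℕ) (l : List (Atom L (Fin m))),
    ∀ (X : Type) [Finite X] (F : X → X → Prop),
      (∃ h : X → G, IsHomo F E h) ↔ (∀ q q', ArcQ F q q' → ¬ ArcQ F q' q) ∧
        ∃ c : Quot (Lnk F) → A, ∀ x : Fin m → Quot (Lnk F), (∀ i j, i < j → ArcQ F (x i) (x j)) →
          ∀ a ∈ l, a.Holds (fun i => c (x i))

end Pool.Agent.H17.UG
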