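import Mathlib
import Pool.Agent.H17.UG.Amal

set_option autoImplicit false

/-!
# The generic coloured undirected graph
-/

namespace Pool.Agent.H17.UG

open Set

/-- A coloured undirected graph. -/
structure CU (K X : Type) where
  E : X → X → Prop
  symm : ∀ x y, E x y → E y x
  c : X → K

/-- The condition on the colours of adjacent vertices with the roles `i` and `j`. -/
def Con {K : Type} (R : K → K → Prop) (i j : Fin 3) (a b : K) : Prop :=
  (i = 0 → j = 1 → R a b) ∧ (i = 0 → j = 2 → a = b) ∧ (i = 1 → j = 2 → a = b)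

/-- All adjacent vertices satisfy the condition for all their roles. -/
def Gd {K X : Type} (R : K → K → Prop) (E : X → X → Prop) (c : X → K) : Prop :=
  ∀ x y i j, E x y → Rol E i x → Rol E j y → Con R i j (c x) (c y)

/-- The tuples `p` and `q` have the same type, up to the change `β` of colours. -/
structure SameU {K X Y I : Type} (C : CU K X) (D : CU K Y) (β : K → K) (p : I → X)
    (q : I → Y) : Prop where
  eq : ∀ i j, p i = p j ↔ q i = q j
  arc : ∀ i j, C.E (p i) (p j) ↔ D.E (q i) (q j)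
  pz : ∀ Z : Set (Fin 9), Z ≠ univ → ∀ t : Fin 9 → I,
    PZ C.E Z (fun u => p (t u)) ↔ PZ D.E Z (fun u => q (t u))
  col : ∀ i, D.c (q i) = β (C.c (p i))

theorem SameU.comp {K X Y I J : Type} {C : CU K X} {D : CU K Y} {β : K → K} {p : I → X}
    {q : I → Y} (h : SameU C D β p q) (f : J → I) :
    SameU C D β (fun j => p (f j)) (fun j => q (f j)) :=
  ⟨fun i j => h.eq _ _, fun i j => h.arc _ _, fun Z hZ t => h.pz Z hZ (fun u => f (t u)),
    fun i => h.col _⟩

namespace Gen

variable {K : Type} {R : K → K → Prop}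

/-- a finite stage of the construction -/
structure St (R : K → K → Prop) where
  a : ℕ
  Y : CU K ℕ
  supp : ∀ x y, Y.E x y → x < a ∧ y < a
  good : Gd R Y.E Y.c

/-- the restriction of a stage to its support -/
def St.res (M : St R) (x y : {y : ℕ // y < M.a}) : Prop := M.Y.E x y

theorem St.pz_iff (M : St R) (Z : Set (Fin 9)) (g : Fin 9 → {y : ℕ // y < M.a}) :
    PZ M.res Z g ↔ PZ M.Y.E Z (fun u => (g u : ℕ)) := by
  constructor
  · intro h
    exact h.mono (fun y : {y : ℕ // y < M.a} => (y : ℕ)) (fun x y h => h)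
  · rintro ⟨h, h1, h2⟩
    have h3 : ∀ u, h u < M.a := by
      intro u
      by_cases hu : u ∈ Z
      · obtain ⟨v, hv⟩ := W_nbr u
        exact (M.supp _ _ (h2 u hu v hv)).1
      · rw [h1 u hu]
        exact (g u).2
    exact ⟨fun u => ⟨h u, h3 u⟩, fun u hu => Subtype.ext (h1 u hu), h2⟩

/-- extension of stages -/
structure Ext (M M' : St R) : Prop where
  le : M.a ≤ M'.a
  edge : ∀ x y, x < M.a → y < M.a → (M'.Y.E x y ↔ M.Y.E x y)
  col : ∀ x, x < M.a → M'.Y.c x = M.Y.c x
  pz : ∀ Z : Set (Fin 9), Z ≠ univ → ∀ g : Fin 9 → ℕ, (∀ u, g u < M.a) →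
    (PZ M'.Y.E Z g ↔ PZ M.Y.E Z g)

theorem Ext.refl (M : St R) : Ext M M :=
  ⟨le_rfl, fun _ _ _ _ => Iff.rfl, fun _ _ => rfl, fun _ _ _ _ => Iff.rfl⟩

theorem Ext.trans {M M' M'' : St R} (h : Ext M M') (h' : Ext M' M'') : Ext M M'' where
  le := h.le.trans h'.le
  edge x y hx hy := (h'.edge x y (hx.trans_le h.le) (hy.trans_le h.le)).trans (h.edge x y hx hy)
  col x hx := (h'.col x (hx.trans_le h.le)).trans (h.col x hx)
  pz Z hZ g hg := (h'.pz Z hZ g (fun u => (hg u).trans_le h.le)).trans (h.pz Z hZ g hg)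

theorem step (M : St R) {b n : ℕ} (X : CU K (Fin b)) (hX : Gd R X.E X.c) (p : Fin n → Fin b)
    (q : Fin n → ℕ) (hq : ∀ i, q i < M.a) (h : SameU X M.Y id p q) (x : Fin b) :
    ∃ M' : St R, Ext M M' ∧ ∃ v, v < M'.a ∧
      SameU X M'.Y id (fun o : Option (Fin n) => o.elim x p) (fun o => o.elim v q) := by
  classical
  let ι2 : Fin b → ℕ := fun y => if hy : ∃ i, p i = y then q hy.choose else M.a + y
  have hι1 : ∀ i, ι2 (p i) = q i := by
    intro i
    have hy : ∃ i', p i' = p i := ⟨i, rfl⟩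
    have h1 : ι2 (p i) = q hy.choose := dif_pos hy
    rw [h1]
    exact (h.eq _ _).1 hy.choose_spec
  have hι2 : ∀ y, (¬ ∃ i, p i = y) → ι2 y = M.a + y := fun y hy => dif_neg hy
  have hinj : Function.Injective ι2 := by
    intro y y' hyy
    by_cases hy : ∃ i, p i = y <;> by_cases hy' : ∃ i, p i = y'
    · obtain ⟨i, rfl⟩ := hy
      obtain ⟨i', rfl⟩ := hy'
      rw [hι1, hι1] at hyy
      exact (h.eq _ _).2 hyy
    · obtain ⟨i, rfl⟩ := hy
      rw [hι1, hι2 y' hy'] at hyy
      have := hq i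
      omega
    · obtain ⟨i', rfl⟩ := hy'
      rw [hι1, hι2 y hy] at hyy
      have := hq i'
      omega
    · rw [hι2 y hy, hι2 y' hy'] at hyy
      exact Fin.ext (by omega)
  let E' : ℕ → ℕ → Prop := fun a b' =>
    (∃ x y : {y : ℕ // y < M.a}, (x : ℕ) = a ∧ (y : ℕ) = b' ∧ M.res x y) ∨
    (∃ x y, ι2 x = a ∧ ι2 y = b' ∧ X.E x y)
  let p1 : Fin n → {y : ℕ // y < M.a} := fun i => ⟨q i, hq i⟩
  have ham : Amalg M.res X.E E' p1 p (fun y : {y : ℕ // y < M.a} => (y : ℕ)) ι2 := by
    refine ⟨Subtype.val_injective, hinj, fun i => (hι1 i).symm, ?_, fun a b' => Iff.rfl,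
      fun x y hxy => M.Y.symm _ _ hxy, X.symm, fun i j => (h.arc i j).symm, ?_⟩
    · rintro ⟨x1, hx1⟩ x2 hx
      by_cases hy : ∃ i, p i = x2
      · obtain ⟨i, rfl⟩ := hy
        refine ⟨i, ?_, rfl⟩
        apply Subtype.ext
        show x1 = q i
        have h1 : x1 = ι2 (p i) := hx
        rw [h1, hι1]
      · exfalso
        have h1 : x1 = ι2 x2 := hx
        rw [hι2 x2 hy] at h1
        omega
    · intro Z hZ t
      rw [M.pz_iff]
      exact (h.pz Z hZ t).symm
  have hlt : ∀ y, ι2 y < M.a + b := by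
    intro y
    by_cases hy : ∃ i, p i = y
    · obtain ⟨i, rfl⟩ := hy
      rw [hι1]
      have := hq i
      omega
    · rw [hι2 y hy]
      have := y.2
      omega
  let c' : ℕ → K := fun y => if hy : y < M.a then M.Y.c y else
    if hy' : y - M.a < b then X.c ⟨y - M.a, hy'⟩ else M.Y.c y
  have hc1 : ∀ y, y < M.a → c' y = M.Y.c y := fun y hy => dif_pos hy
  have hc2 : ∀ y, c' (ι2 y) = X.c y := by
    intro y
    by_cases hy : ∃ i, p i = y
    · obtain ⟨i, rfl⟩ := hy
      rw [hι1, hc1 _ (hq i)]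
      exact h.col i
    · rw [hι2 y hy]
      have h1 : ¬ M.a + (y : ℕ) < M.a := by omega
      have h2 : M.a + (y : ℕ) - M.a = y := by omega
      have h3 : M.a + (y : ℕ) - M.a < b := by rw [h2]; exact y.2
      simp only [c']
      rw [dif_neg h1, dif_pos h3]
      congr 1
      exact Fin.ext h2
  let M' : St R :=
    { a := M.a + b
      Y := ⟨E', ham.esymm, c'⟩
      supp := by
        rintro a b' (⟨x, y, rfl, rfl, -⟩ | ⟨x, y, rfl, rfl, -⟩)
        · exact ⟨by omega, by omega⟩
        · exact ⟨hlt _, hlt _⟩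
      good := by
        rintro a b' i j (⟨x, y, rfl, rfl, h1⟩ | ⟨x, y, rfl, rfl, h1⟩) h2 h3
        · rw [ham.rol1] at h2 h3
          have h4 : Rol M.Y.E i x := h2.mono (fun y : {y : ℕ // y < M.a} => (y : ℕ))
            (fun x y h => h)
          have h5 : Rol M.Y.E j y := h3.mono (fun y : {y : ℕ // y < M.a} => (y : ℕ))
            (fun x y h => h)
          show Con R i j (c' x) (c' y)
          rw [hc1 _ x.2, hc1 _ y.2]
          exact M.good _ _ i j h1 h4 h5
        · rw [ham.symm.rol1] at h2 h3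
          show Con R i j (c' (ι2 x)) (c' (ι2 y))
          rw [hc2, hc2]
          exact hX _ _ i j h1 h2 h3 }
  refine ⟨M', ⟨Nat.le_add_right _ _, ?_, hc1, ?_⟩, ι2 x, hlt x, ?_⟩
  · intro y y' hy hy'
    exact ham.edge1 ⟨y, hy⟩ ⟨y', hy'⟩
  · intro Z hZ g hg
    have h1 := ham.pz1 Z hZ (fun u => ⟨g u, hg u⟩)
    rw [M.pz_iff] at h1
    exact h1
  · have e1 : (fun o : Option (Fin n) => o.elim (ι2 x) q) = fun o => ι2 (o.elim x p) := by
      funext o
      cases o with
      | none => rfl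
      | some i => exact (hι1 i).symm
    rw [e1]
    refine ⟨fun i j => hinj.eq_iff.symm, fun i j => (ham.symm.edge1 _ _).symm,
      fun Z hZ t => (ham.symm.pz1 Z hZ _).symm, fun i => hc2 _⟩

/-- the tasks -/
structure Task (K : Type) where
  b : ℕ
  n : ℕ
  X : CU K (Fin b)
  p : Fin n → Fin b
  q : Fin n → ℕ
  x : Fin b

instance [Countable K] (b : ℕ) : Countable (CU K (Fin b)) := by
  let f : CU K (Fin b) → (Fin b → Fin b → Prop) × (Fin b → K) := fun X => (X.E, X.c)
  have hf : Function.Injective f := by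
    rintro ⟨E, h, c⟩ ⟨E', h', c'⟩ he
    have := Prod.mk.inj he
    obtain ⟨h1, h2⟩ := this
    simp only at h1 h2
    subst h1
    subst h2
    rfl
  exact hf.countable

instance [Countable K] : Countable (Task K) := by
  let f : Task K → Σ (b n : ℕ), CU K (Fin b) × (Fin n → Fin b) × (Fin n → ℕ) × Fin b :=
    fun T => ⟨T.b, T.n, T.X, T.p, T.q, T.x⟩
  have hf : Function.Injective f := by
    rintro ⟨b, n, X, p, q, x⟩ ⟨b', n', X', p', q', x'⟩ he
    simp only [f, Sigma.mk.injEq] at he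
    obtain ⟨rfl, he⟩ := he
    have he := eq_of_heq he
    simp only [Sigma.mk.injEq] at he
    obtain ⟨rfl, he⟩ := he
    have he := eq_of_heq he
    simp only [Prod.mk.injEq] at he
    obtain ⟨rfl, rfl, rfl, rfl⟩ := he
    rfl
  exact hf.countable

/-- the task is applicable -/
def Valid (M : St R) (T : Task K) : Prop :=
  Gd R T.X.E T.X.c ∧ (∀ i, T.q i < M.a) ∧ SameU T.X M.Y id T.p T.q

open Classical in
/-- the next stage -/
noncomputable def next (M : St R) (T : Task K) : St R :=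
  if h : Valid M T then (step M T.X h.1 T.p T.q h.2.1 h.2.2 T.x).choose else M

theorem next_ext (M : St R) (T : Task K) : Ext M (next M T) := by
  unfold next
  split_ifs with h
  · exact (step M T.X h.1 T.p T.q h.2.1 h.2.2 T.x).choose_spec.1
  · exact Ext.refl M

theorem next_spec (M : St R) (T : Task K) (h : Valid M T) : ∃ v, v < (next M T).a ∧
    SameU T.X (next M T).Y id (fun o : Option (Fin T.n) => o.elim T.x T.p)
      (fun o => o.elim v T.q) := by
  unfold next
  rw [dif_pos h]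
  exact (step M T.X h.1 T.p T.q h.2.1 h.2.2 T.x).choose_spec.2

end Gen

end Pool.Agent.H17.UG
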