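import Mathlib
import Pool.Agent.H17.UG.Gen

set_option autoImplicit false

/-!
# The generic coloured undirected graph, second part
-/

namespace Pool.Agent.H17.UG

open Set

/-- the extension property -/
structure IsGenU {K G : Type} (R : K → K → Prop) (C : CU K G) : Prop where
  good : Gd R C.E C.c
  ext : ∀ (X : Type) (Y : CU K X) (β : K → K) (_ : Gd R Y.E (fun x => β (Y.c x)))
    (I : Type) (_ : Finite I) (p : I → X) (q : I → G) (_ : SameU Y C β p q) (x : X),
    ∃ v : G, SameU Y C β (fun o : Option I => o.elim x p) (fun o => o.elim v q)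

namespace Gen

variable {K : Type} {R : K → K → Prop}

section

variable (K) [Countable K] [Nonempty K]

instance : Nonempty (Task K) :=
  ⟨⟨1, 0, ⟨fun _ _ => False, fun _ _ h => h, fun _ => Classical.arbitrary K⟩, fun i => i.elim0,
    fun i => i.elim0, 0⟩⟩

/-- the enumeration of the tasks -/
noncomputable def tk : ℕ → Task K := (exists_surjective_nat (Task K)).choose

theorem tk_surj : Function.Surjective (tk K) := (exists_surjective_nat (Task K)).choose_spec

end

section

variable [Countable K] [Nonempty K]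

variable (R) in
/-- the stages -/
noncomputable def seq : ℕ → St R
  | 0 => { a := 0
           Y := ⟨fun _ _ => False, fun _ _ h => h, fun _ => Classical.arbitrary K⟩
           supp := fun _ _ h => h.elim
           good := fun _ _ _ _ h => h.elim }
  | N + 1 => next (seq N) (tk K (Nat.unpair N).1)

theorem seq_ext {m n : ℕ} (h : m ≤ n) : Ext (seq R m) (seq R n) := by
  induction n, h using Nat.le_induction with
  | base => exact Ext.refl _
  | succ n _ ih => exact ih.trans (next_ext _ _)

variable (R) in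
/-- the limit -/
abbrev Om : Type := {y : ℕ // ∃ n, y < (seq R n).a}

theorem lt_of {y m n : ℕ} (h : m ≤ n) (hy : y < (seq R m).a) : y < (seq R n).a :=
  hy.trans_le (seq_ext h).le

variable (R) in
/-- the limit graph -/
noncomputable def lim : CU K (Om R) where
  E x y := ∃ n, (seq R n).Y.E x y
  symm := fun _ _ ⟨n, h⟩ => ⟨n, (seq R n).Y.symm _ _ h⟩
  c x := (seq R x.2.choose).Y.c x

theorem lim_E {n : ℕ} {x y : Om R} (hx : (x : ℕ) < (seq R n).a) (hy : (y : ℕ) < (seq R n).a) :
    (lim R).E x y ↔ (seq R n).Y.E x y := by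
  constructor
  · rintro ⟨m, hm⟩
    obtain ⟨h1, h2⟩ := (seq R m).supp _ _ hm
    have h3 := ((seq_ext (R := R) (le_max_left m n)).edge _ _ h1 h2).2 hm
    exact ((seq_ext (R := R) (le_max_right m n)).edge _ _ hx hy).1 h3
  · intro h
    exact ⟨n, h⟩

theorem lim_c {n : ℕ} {x : Om R} (hx : (x : ℕ) < (seq R n).a) :
    (lim R).c x = (seq R n).Y.c x := by
  show (seq R x.2.choose).Y.c x = _
  rw [← (seq_ext (R := R) (le_max_left x.2.choose n)).col _ x.2.choose_spec,
    ← (seq_ext (R := R) (le_max_right x.2.choose n)).col _ hx]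

theorem bound {I : Type} [Finite I] (g : I → Om R) (m : ℕ) :
    ∃ n, m ≤ n ∧ ∀ i, (g i : ℕ) < (seq R n).a := by
  have h1 := fun i => (g i).2
  choose N hN using h1
  obtain ⟨n, hn⟩ := (Set.finite_range N).bddAbove
  exact ⟨max m n, le_max_left _ _, fun i => lt_of ((hn ⟨i, rfl⟩).trans (le_max_right _ _)) (hN i)⟩

theorem lim_pz {n : ℕ} (Z : Set (Fin 9)) (hZ : Z ≠ univ) (g : Fin 9 → Om R)
    (hg : ∀ u, (g u : ℕ) < (seq R n).a) :
    PZ (lim R).E Z g ↔ PZ (seq R n).Y.E Z (fun u => (g u : ℕ)) := by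
  constructor
  · rintro ⟨h, h1, h2⟩
    obtain ⟨N, hN, hN'⟩ := bound h n
    rw [← (seq_ext (R := R) hN).pz Z hZ _ hg]
    refine ⟨fun u => (h u : ℕ), fun u hu => congrArg Subtype.val (h1 u hu), fun u hu v huv => ?_⟩
    exact (lim_E (hN' u) (hN' v)).1 (h2 u hu v huv)
  · rintro ⟨h, h1, h2⟩
    have h3 : ∀ u, h u < (seq R n).a := by
      intro u
      by_cases hu : u ∈ Z
      · obtain ⟨v, hv⟩ := W_nbr u
        exact ((seq R n).supp _ _ (h2 u hu v hv)).1
      · rw [h1 u hu]
        exact hg u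
    exact ⟨fun u => ⟨h u, n, h3 u⟩, fun u hu => Subtype.ext (h1 u hu),
      fun u hu v huv => ⟨n, h2 u hu v huv⟩⟩

theorem lim_good : Gd R (lim R).E (lim R).c := by
  intro x y i j hE hx hy
  obtain ⟨n, -, hn⟩ := bound (R := R) ![x, y] 0
  have hnx : (x : ℕ) < (seq R n).a := hn 0
  have hny : (y : ℕ) < (seq R n).a := hn 1
  rw [lim_c hnx, lim_c hny]
  rw [lim_E hnx hny] at hE
  rw [rol_iff (lim R).symm, lim_pz _ (compl_ne_univ _) _ (fun _ => hnx),
    ← rol_iff (seq R n).Y.symm] at hx
  rw [rol_iff (lim R).symm, lim_pz _ (compl_ne_univ _) _ (fun _ => hny),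
    ← rol_iff (seq R n).Y.symm] at hy
  exact (seq R n).good _ _ i j hE hx hy

/-- the translation between the limit and the stages -/
theorem same_lim {X I : Type} {Y : CU K X} {β : K → K} {p : I → X} {q : I → Om R} {n : ℕ}
    (hq : ∀ i, (q i : ℕ) < (seq R n).a) :
    SameU Y (lim R) β p q ↔ SameU Y (seq R n).Y β p (fun i => (q i : ℕ)) := by
  constructor
  · intro h
    refine ⟨fun i j => (h.eq i j).trans Subtype.ext_iff, fun i j => ?_, fun Z hZ t => ?_,
      fun i => ?_⟩
    · rw [← lim_E (hq i) (hq j)]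
      exact h.arc i j
    · rw [h.pz Z hZ t]
      exact lim_pz Z hZ _ (fun u => hq _)
    · rw [← lim_c (hq i)]
      exact h.col i
  · intro h
    refine ⟨fun i j => (h.eq i j).trans Subtype.ext_iff.symm, fun i j => ?_, fun Z hZ t => ?_,
      fun i => ?_⟩
    · rw [lim_E (hq i) (hq j)]
      exact h.arc i j
    · rw [h.pz Z hZ t]
      exact (lim_pz Z hZ _ (fun u => hq _)).symm
    · rw [lim_c (hq i)]
      exact h.col i

/-- the extension property for finite structures -/
theorem ext_fin {b n : ℕ} (X : CU K (Fin b)) (hX : Gd R X.E X.c) (p : Fin n → Fin b)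
    (q : Fin n → Om R) (h : SameU X (lim R) id p q) (x : Fin b) :
    ∃ v : Om R, SameU X (lim R) id (fun o : Option (Fin n) => o.elim x p)
      (fun o => o.elim v q) := by
  obtain ⟨k, hk⟩ := tk_surj K ⟨b, n, X, p, fun i => (q i : ℕ), x⟩
  obtain ⟨m, -, hm⟩ := bound (R := R) q 0
  let N := Nat.pair k m
  have hN : (Nat.unpair N).1 = k := by simp [N]
  have hmN : m ≤ N := Nat.right_le_pair k m
  have hq : ∀ i, (q i : ℕ) < (seq R N).a := fun i => lt_of hmN (hm i)
  have hval : Valid (seq R N) (tk K (Nat.unpair N).1) := by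
    rw [hN, hk]
    exact ⟨hX, hq, (same_lim hq).1 h⟩
  obtain ⟨v, hv1, hv2⟩ := next_spec (seq R N) _ hval
  have hs : seq R (N + 1) = next (seq R N) (tk K (Nat.unpair N).1) := rfl
  rw [← hs] at hv1 hv2
  rw [hN, hk] at hv2
  refine ⟨⟨v, N + 1, hv1⟩, ?_⟩
  have hq' : ∀ o : Option (Fin n), ((o.elim (⟨v, N + 1, hv1⟩ : Om R) q : Om R) : ℕ) <
      (seq R (N + 1)).a := by
    intro o
    cases o with
    | none => exact hv1
    | some i => exact lt_of (Nat.le_succ N) (hq i)
  rw [same_lim hq']
  have e1 : (fun o : Option (Fin n) => ((o.elim (⟨v, N + 1, hv1⟩ : Om R) q : Om R) : ℕ)) =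
      fun o => o.elim v (fun i => (q i : ℕ)) := by
    funext o
    cases o <;> rfl
  rw [e1]
  exact hv2

theorem lim_isGen : IsGenU R (lim R) := by
  classical
  refine ⟨lim_good, ?_⟩
  intro X Y β hY I hI p q h x
  have := Fintype.ofFinite I
  let n := Fintype.card I
  let e : Fin n ≃ I := (Fintype.equivFin I).symm
  let p' : Option I → X := fun o => o.elim x p
  -- witnesses
  have hw : ∀ zt : Set (Fin 9) × (Fin 9 → Option I), ∃ w : Fin 9 → X,
      PZ Y.E zt.1 (fun u => p' (zt.2 u)) → (∀ u, u ∉ zt.1 → w u = p' (zt.2 u)) ∧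
        ∀ u ∈ zt.1, ∀ v, W u v → Y.E (w u) (w v) := by
    intro zt
    by_cases h1 : PZ Y.E zt.1 (fun u => p' (zt.2 u))
    · obtain ⟨w, hw⟩ := h1
      exact ⟨w, fun _ => hw⟩
    · exact ⟨fun _ => x, fun h2 => absurd h2 h1⟩
  choose w hw using hw
  let F : Set X := range p' ∪ range (fun a : (Set (Fin 9) × (Fin 9 → Option I)) × Fin 9 =>
    w a.1 a.2)
  have hFfin : F.Finite := (finite_range _).union (finite_range _)
  have := hFfin.fintype
  let b := Fintype.card F
  let d : Fin b ≃ F := (Fintype.equivFin F).symm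
  let f : Fin b → X := fun i => (d i : X)
  have hf : Function.Injective f := fun i j hij => d.injective (Subtype.ext hij)
  have hfs : ∀ y ∈ F, ∃ i, f i = y := by
    intro y hy
    exact ⟨d.symm ⟨y, hy⟩, by simp [f]⟩
  have hp1 : ∀ o, ∃ i, f i = p' o := fun o => hfs _ (Or.inl ⟨o, rfl⟩)
  choose r hr using hp1
  let X' : CU K (Fin b) := ⟨fun i j => Y.E (f i) (f j), fun i j h => Y.symm _ _ h,
    fun i => β (Y.c (f i))⟩
  have hX' : Gd R X'.E X'.c := by
    intro i j a b hE h1 h2
    exact hY _ _ a b hE (h1.mono f fun _ _ h => h) (h2.mono f fun _ _ h => h)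
  have hpz : ∀ Z : Set (Fin 9), ∀ t : Fin 9 → Option I,
      PZ X'.E Z (fun u => r (t u)) ↔ PZ Y.E Z (fun u => p' (t u)) := by
    intro Z t
    constructor
    · intro h1
      have h2 := h1.mono (F := Y.E) f (fun _ _ h => h)
      simp only [hr] at h2
      exact h2
    · intro h1
      obtain ⟨h2, h3⟩ := hw (Z, t) h1
      have h4 : ∀ u, ∃ i, f i = w (Z, t) u := fun u => hfs _ (Or.inr ⟨((Z, t), u), rfl⟩)
      choose k hk using h4
      refine ⟨k, fun u hu => ?_, fun u hu v huv => ?_⟩
      · apply hf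
        rw [hk, hr]
        exact h2 u hu
      · show Y.E (f (k u)) (f (k v))
        rw [hk, hk]
        exact h3 u hu v huv
  have key : ∀ {J : Type} (s : J → Option I) (q' : J → Om R),
      SameU X' (lim R) id (fun j => r (s j)) q' ↔ SameU Y (lim R) β (fun j => p' (s j)) q' := by
    intro J s q'
    constructor
    · intro h1
      refine ⟨fun i j => ?_, fun i j => ?_, fun Z hZ t => ?_, fun i => ?_⟩
      · rw [← h1.eq, ← hr, ← hr, hf.eq_iff]
      · rw [← h1.arc, ← hr, ← hr]
      · rw [← h1.pz Z hZ t]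
        exact (hpz Z (fun u => s (t u))).symm
      · rw [h1.col, ← hr]
        rfl
    · intro h1
      refine ⟨fun i j => ?_, fun i j => ?_, fun Z hZ t => ?_, fun i => ?_⟩
      · rw [← h1.eq, ← hr, ← hr, hf.eq_iff]
      · rw [← h1.arc, ← hr, ← hr]
      · rw [← h1.pz Z hZ t]
        exact hpz Z (fun u => s (t u))
      · rw [h1.col, ← hr]
        rfl
  obtain ⟨v, hv⟩ := ext_fin X' hX' (fun i => r (some (e i))) (fun i => q (e i))
    ((key (fun i : Fin n => some (e i)) (fun i => q (e i))).2 (h.comp e)) (r none)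
  refine ⟨v, ?_⟩
  have h1 : SameU X' (lim R) id (fun o : Option (Fin n) => r (o.map e))
      (fun o => o.elim v (fun i => q (e i))) := by
    convert hv using 1
    funext o
    cases o <;> rfl
  have h2 := (key _ _).1 h1
  have h3 := h2.comp (fun o : Option I => o.map e.symm)
  convert h3 using 1
  · funext o
    cases o <;> simp [p']
  · funext o
    cases o <;> simp

end

end Gen

theorem exists_isGenU (K : Type) [Countable K] [Nonempty K] (R : K → K → Prop) :
    ∃ (G : Type) (_ : Countable G) (C : CU K G), IsGenU R C :=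
  ⟨Gen.Om R, inferInstance, Gen.lim R, Gen.lim_isGen⟩

end Pool.Agent.H17.UG
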