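import Mathlib
import Pool.Agent.H17.UG.Gen2
import Pool.Agent.H74.Stub.Core

set_option autoImplicit false

/-!
# Back and forth for the generic coloured undirected graph
-/

namespace Pool.Agent.H17.UG

open Pool.Agent.H74.Stub (exists_seq_ext)
open Set

section

variable {K G X I J : Type} {R : K → K → Prop} {C : CU K G}

theorem Con.map {R : K → K → Prop} {β : K → K} (hβ : ∀ a b, R a b → R (β a) (β b)) {i j : Fin 3}
    {a b : K} (h : Con R i j a b) : Con R i j (β a) (β b) :=
  ⟨fun h1 h2 => hβ _ _ (h.1 h1 h2), fun h1 h2 => congrArg β (h.2.1 h1 h2),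
    fun h1 h2 => congrArg β (h.2.2 h1 h2)⟩

theorem Gd.map {E : X → X → Prop} {c : X → K} (h : Gd R E c) {β : K → K}
    (hβ : ∀ a b, R a b → R (β a) (β b)) : Gd R E (fun x => β (c x)) :=
  fun x y i j h1 h2 h3 => (h x y i j h1 h2 h3).map hβ

theorem SameU.symm {Y : CU K X} {β : K ≃ K} {p : I → X} {q : I → G} (h : SameU Y C β p q) :
    SameU C Y β.symm q p where
  eq i j := (h.eq i j).symm
  arc i j := (h.arc i j).symm
  pz Z hZ t := (h.pz Z hZ t).symm
  col i := by
    rw [h.col i, Equiv.symm_apply_apply]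

theorem sameU_of_finite {Y : CU K X} {β : K → K} {p : I → X} {q : I → G} {a : ℕ → X} {b : ℕ → G}
    (h : ∀ N, SameU Y C β (Sum.elim p (fun i : Fin N => a i)) (Sum.elim q (fun i : Fin N => b i))) :
    SameU Y C β (Sum.elim p a) (Sum.elim q b) := by
  let bd : I ⊕ ℕ → ℕ := Sum.elim (fun _ => 0) (fun i => i + 1)
  have lift : ∀ N (o : I ⊕ ℕ), bd o ≤ N → ∃ o' : I ⊕ Fin N,
      o = Sum.map id (fun i : Fin N => (i : ℕ)) o' := by
    intro N o ho
    cases o with
    | inl i => exact ⟨Sum.inl i, rfl⟩
    | inr i => exact ⟨Sum.inr ⟨i, ho⟩, rfl⟩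
  have e1 : ∀ N (o : I ⊕ Fin N), Sum.elim p a (Sum.map id (fun i : Fin N => (i : ℕ)) o) =
      Sum.elim p (fun i : Fin N => a i) o := by
    intro N o; cases o <;> rfl
  have e2 : ∀ N (o : I ⊕ Fin N), Sum.elim q b (Sum.map id (fun i : Fin N => (i : ℕ)) o) =
      Sum.elim q (fun i : Fin N => b i) o := by
    intro N o; cases o <;> rfl
  have f1 : ∀ N (o : I ⊕ ℕ) (o' : I ⊕ Fin N), o = Sum.map id (fun i : Fin N => (i : ℕ)) o' →
      Sum.elim p a o = Sum.elim p (fun i : Fin N => a i) o' :=
    fun N o o' h => (congrArg (Sum.elim p a) h).trans (e1 _ _)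
  have f2 : ∀ N (o : I ⊕ ℕ) (o' : I ⊕ Fin N), o = Sum.map id (fun i : Fin N => (i : ℕ)) o' →
      Sum.elim q b o = Sum.elim q (fun i : Fin N => b i) o' :=
    fun N o o' h => (congrArg (Sum.elim q b) h).trans (e2 _ _)
  refine ⟨?_, ?_, ?_, ?_⟩
  · intro i j
    obtain ⟨i', hi'⟩ := lift (max (bd i) (bd j)) i (le_max_left _ _)
    obtain ⟨j', hj'⟩ := lift (max (bd i) (bd j)) j (le_max_right _ _)
    rw [f1 _ _ _ hi', f1 _ _ _ hj', f2 _ _ _ hi', f2 _ _ _ hj']
    exact (h _).eq _ _
  · intro i j
    obtain ⟨i', hi'⟩ := lift (max (bd i) (bd j)) i (le_max_left _ _)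
    obtain ⟨j', hj'⟩ := lift (max (bd i) (bd j)) j (le_max_right _ _)
    rw [f1 _ _ _ hi', f1 _ _ _ hj', f2 _ _ _ hi', f2 _ _ _ hj']
    exact (h _).arc _ _
  · intro Z hZ t
    obtain ⟨N, hN⟩ : ∃ N, ∀ i, bd (t i) ≤ N :=
      ⟨Finset.univ.sup (fun i => bd (t i)),
        fun i => Finset.le_sup (f := fun i => bd (t i)) (Finset.mem_univ i)⟩
    have := fun i => lift N (t i) (hN i)
    choose t' ht' using this
    have e4 : (fun i => Sum.elim p a (t i)) = fun i => Sum.elim p (fun i : Fin N => a i) (t' i) :=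
      funext fun i => f1 _ _ _ (ht' i)
    have e5 : (fun i => Sum.elim q b (t i)) = fun i => Sum.elim q (fun i : Fin N => b i) (t' i) :=
      funext fun i => f2 _ _ _ (ht' i)
    rw [e4, e5]
    exact (h N).pz Z hZ t'
  · intro i
    obtain ⟨i', hi'⟩ := lift (bd i) i le_rfl
    rw [f1 _ _ _ hi', f2 _ _ _ hi']
    exact (h _).col _

/-- the step of the constructions -/
theorem stepU {Y : CU K X} {β : K → K} {p : I → X} {q : I → G} {N : ℕ} {a : ℕ → X} {b : ℕ → G}
    {x : X} {v : G}
    (h : SameU Y C β (fun o : Option (I ⊕ Fin N) => o.elim x (Sum.elim p (fun i : Fin N => a i)))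
      (fun o => o.elim v (Sum.elim q (fun i : Fin N => b i)))) :
    SameU Y C β (Sum.elim p (fun i : Fin (N + 1) => Function.update a N x i))
      (Sum.elim q (fun i : Fin (N + 1) => Function.update b N v i)) := by
  let f : I ⊕ Fin (N + 1) → Option (I ⊕ Fin N) :=
    Sum.elim (fun i => some (Sum.inl i)) (Fin.lastCases none (fun i => some (Sum.inr i)))
  convert h.comp f using 1
  · funext o
    rcases o with i | i
    · rfl
    · refine Fin.lastCases ?_ (fun j => ?_) i
      · simp [f]
      · have : (j : ℕ) ≠ N := j.2.ne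
        simp [f, Function.update_of_ne this]
  · funext o
    rcases o with i | i
    · rfl
    · refine Fin.lastCases ?_ (fun j => ?_) i
      · simp [f]
      · have : (j : ℕ) ≠ N := j.2.ne
        simp [f, Function.update_of_ne this]

theorem sameU_zero {Y : CU K X} {β : K → K} {p : I → X} {q : I → G} {a : ℕ → X} {b : ℕ → G}
    (h : SameU Y C β p q) :
    SameU Y C β (Sum.elim p (fun i : Fin 0 => a i)) (Sum.elim q (fun i : Fin 0 => b i)) := by
  have h1 := h.comp (Sum.elim id (fun i : Fin 0 => i.elim0))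
  convert h1 using 1
  · funext o
    rcases o with i | i
    · rfl
    · exact i.elim0
  · funext o
    rcases o with i | i
    · rfl
    · exact i.elim0

/-- Extension of a finite map to a countable structure. -/
theorem IsGenU.embed (hC : IsGenU R C) [Countable X] (Y : CU K X) (β : K → K)
    (hY : Gd R Y.E (fun x => β (Y.c x)))
    [Finite I] (p : I → X) (q : I → G) (h : SameU Y C β p q) :
    ∃ e : X → G, SameU Y C β (Sum.elim p id) (Sum.elim q e) := by
  classical
  rcases isEmpty_or_nonempty X with hX | hX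
  · exact ⟨isEmptyElim, fun i => (hX.false (Sum.elim p id i)).elim,
      fun i => (hX.false (Sum.elim p id i)).elim,
      fun Z _ t => (hX.false (Sum.elim p id (t 0))).elim,
      fun i => (hX.false (Sum.elim p id i)).elim⟩
  obtain ⟨x0⟩ := hX
  obtain ⟨v0, -⟩ := hC.ext X Y β hY I inferInstance p q h x0
  have : Nonempty X := ⟨x0⟩
  obtain ⟨a, ha⟩ := exists_surjective_nat X
  obtain ⟨b, -, h2, -⟩ := exists_seq_ext
    (fun N b => SameU Y C β (Sum.elim p (fun i : Fin N => a i)) (Sum.elim q (fun i : Fin N => b i)))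
    (by
      intro N b b' hbb hb
      have : (fun i : Fin N => b' i) = fun i : Fin N => b i := by
        funext i
        exact (hbb i i.2).symm
      rw [this]
      exact hb)
    (fun _ _ => True) 0 (fun _ => v0) (sameU_zero (a := a) (b := fun _ => v0) h)
    (by
      intro N _ b hb
      obtain ⟨v, hv⟩ := hC.ext X Y β hY _ inferInstance _ _ hb (a N)
      refine ⟨v, trivial, ?_⟩
      have := stepU (a := a) (b := b) hv
      rwa [Function.update_eq_self] at this)
  have h3 : SameU Y C β (Sum.elim p a) (Sum.elim q b) :=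
    sameU_of_finite (fun N => h2 N (Nat.zero_le _))
  choose idx hidx using ha
  refine ⟨fun x => b (idx x), ?_⟩
  convert h3.comp (Sum.map id idx) using 1
  · funext o
    rcases o with i | x
    · rfl
    · exact (hidx x).symm
  · funext o
    rcases o with i | x <;> rfl

theorem IsGenU.embed' (hC : IsGenU R C) [Countable X] (Y : CU K X) (hY : Gd R Y.E Y.c) :
    ∃ e : X → G, SameU Y C id id e := by
  rcases isEmpty_or_nonempty X with hX | hX
  · exact ⟨isEmptyElim, fun i => (hX.false i).elim, fun i => (hX.false i).elim,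
      fun Z _ t => (hX.false (t 0)).elim, fun i => (hX.false i).elim⟩
  obtain ⟨e, he⟩ := hC.embed Y id hY (I := Empty) (fun i => i.elim) (fun i => i.elim)
    ⟨fun i => i.elim, fun i => i.elim, fun Z _ t => (t 0).elim, fun i => i.elim⟩
  refine ⟨e, ?_⟩
  have := he.comp (fun x : X => (Sum.inr x : Empty ⊕ X))
  exact this

/-- The back and forth argument. -/
theorem IsGenU.aut (hC : IsGenU R C) [Countable G] (β : K ≃ K)
    (hβ : ∀ a b, R a b → R (β a) (β b)) (hβ' : ∀ a b, R a b → R (β.symm a) (β.symm b))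
    [Finite I] (p q : I → G) (h : SameU C C β p q) :
    ∃ σ : G ≃ G, (∀ i, σ (p i) = q i) ∧ SameU C C β id σ := by
  classical
  have hY : Gd R C.E (fun x => β (C.c x)) := hC.good.map hβ
  have hY' : Gd R C.E (fun x => β.symm (C.c x)) := hC.good.map hβ'
  rcases isEmpty_or_nonempty G with hG | hG
  · exact ⟨Equiv.refl G, fun i => (hG.false (p i)).elim, ⟨fun i => (hG.false i).elim,
      fun i => (hG.false i).elim, fun Z _ t => (hG.false (t 0)).elim, fun i => (hG.false i).elim⟩⟩
  obtain ⟨e, he⟩ := exists_surjective_nat G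
  let S : ℕ → G × G → Prop := fun N c =>
    (∀ j, N = 2 * j → c.1 = e j) ∧ (∀ j, N = 2 * j + 1 → c.2 = e j)
  obtain ⟨b, -, h2, h3⟩ := exists_seq_ext
    (fun N b => SameU C C β (Sum.elim p (fun i : Fin N => (b i).1))
      (Sum.elim q (fun i : Fin N => (b i).2)))
    (by
      intro N b b' hbb hb
      have e1 : (fun i : Fin N => (b' i).1) = fun i : Fin N => (b i).1 := by
        funext i
        rw [hbb i i.2]
      have e2 : (fun i : Fin N => (b' i).2) = fun i : Fin N => (b i).2 := by
        funext i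
        rw [hbb i i.2]
      rw [e1, e2]
      exact hb)
    S 0 (fun _ => (e 0, e 0)) (sameU_zero (a := fun _ => e 0) (b := fun _ => e 0) h)
    (by
      intro N _ b hb
      have hupd : ∀ (x v : G), SameU C C β (fun o : Option (I ⊕ Fin N) => o.elim x
            (Sum.elim p (fun i : Fin N => (b i).1)))
          (fun o => o.elim v (Sum.elim q (fun i : Fin N => (b i).2))) →
          SameU C C β (Sum.elim p (fun i : Fin (N + 1) => (Function.update b N (x, v) i).1))
            (Sum.elim q (fun i : Fin (N + 1) => (Function.update b N (x, v) i).2)) := by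
        intro x v hxv
        have := stepU (a := fun i => (b i).1) (b := fun i => (b i).2) hxv
        have e1 : (fun i : Fin (N + 1) => (Function.update b N (x, v) i).1) =
            fun i : Fin (N + 1) => Function.update (fun i => (b i).1) N x i := by
          funext i
          by_cases hi : (i : ℕ) = N
          · rw [hi]; simp
          · simp [Function.update_of_ne hi]
        have e2 : (fun i : Fin (N + 1) => (Function.update b N (x, v) i).2) =
            fun i : Fin (N + 1) => Function.update (fun i => (b i).2) N v i := by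
          funext i
          by_cases hi : (i : ℕ) = N
          · rw [hi]; simp
          · simp [Function.update_of_ne hi]
        rw [e1, e2]
        exact this
      rcases Nat.even_or_odd' N with ⟨j, hj | hj⟩
      · obtain ⟨v, hv⟩ := hC.ext G C β hY _ inferInstance _ _ hb (e j)
        refine ⟨(e j, v), ⟨?_, ?_⟩, hupd _ _ hv⟩
        · intro j' hj'
          have : j = j' := by omega
          rw [this]
        · intro j' hj'
          omega
      · obtain ⟨v, hv⟩ := hC.ext G C β.symm hY' _ inferInstance _ _ hb.symm (e j)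
        refine ⟨(v, e j), ⟨?_, ?_⟩, hupd _ _ ?_⟩
        · intro j' hj'
          omega
        · intro j' hj'
          have : j = j' := by omega
          rw [this]
        · have := hv.symm
          rwa [Equiv.symm_symm] at this)
  have h4 : SameU C C β (Sum.elim p (fun i => (b i).1)) (Sum.elim q (fun i => (b i).2)) :=
    sameU_of_finite (a := fun i => (b i).1) (b := fun i => (b i).2) (fun N => h2 N (Nat.zero_le _))
  have hV : ∀ v, ∃ i, (b i).1 = v := by
    intro v
    obtain ⟨j, rfl⟩ := he v
    exact ⟨2 * j, (h3 _ (Nat.zero_le _)).1 j rfl⟩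
  have hW : ∀ w, ∃ i, (b i).2 = w := by
    intro w
    obtain ⟨j, rfl⟩ := he w
    exact ⟨2 * j + 1, (h3 _ (Nat.zero_le _)).2 j rfl⟩
  choose iV hiV using hV
  choose iW hiW using hW
  have heq : ∀ i j, (b i).1 = (b j).1 ↔ (b i).2 = (b j).2 := fun i j => h4.eq (Sum.inr i) (Sum.inr j)
  have hg : ∀ j, (b (iV (b j).1)).2 = (b j).2 := fun j => (heq _ _).1 (hiV _)
  have hg' : ∀ j, (b (iW (b j).2)).1 = (b j).1 := fun j => (heq _ _).2 (hiW _)
  let g : G ≃ G :=
    { toFun := fun v => (b (iV v)).2
      invFun := fun w => (b (iW w)).1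
      left_inv := fun v => by
        show (b (iW (b (iV v)).2)).1 = v
        rw [hg', hiV]
      right_inv := fun w => by
        show (b (iV (b (iW w)).1)).2 = w
        rw [hg, hiW] }
  refine ⟨g, fun i => ?_, ?_⟩
  · have h5 := h4.eq (Sum.inl i) (Sum.inr (iV (p i)))
    exact (h5.1 (hiV (p i)).symm).symm
  · have h6 := h4.comp (fun v : G => Sum.inr (iV v))
    have e1 : (fun v : G => Sum.elim p (fun i => (b i).1) (Sum.inr (iV v))) = id :=
      funext fun v => hiV v
    rw [e1] at h6
    exact h6

end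

end Pool.Agent.H17.UG
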