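import Mathlib
import Pool.Agent.H17.UG.BF
import Pool.Agent.H17.DG.PPC

set_option autoImplicit false

/-!
# The generic coloured graph pp-constructs the template
-/

namespace Pool.Agent.H17.UG

open Set
open FirstOrder FirstOrder.Language Pool.Agent.H74.Stub
open Pool.Agent.H17.DG (Dig digStr ArcRel IsHomo pp_arc)

/-- A graph which consists of copies of `W`, in each of which one of the special vertices may be
adjacent to special vertices of another kind of other copies. -/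
def Cop {T : Type} (ty : T → Fin 3) (X : T → T → Prop) (p q : T × Fin 9) : Prop :=
  (p.1 = q.1 ∧ W p.2 q.2) ∨ (p.2 = rt (ty p.1) ∧ q.2 = rt (ty q.1) ∧ X p.1 q.1)

theorem cop_hom {T : Type} {ty : T → Fin 3} {X : T → T → Prop} (hX : ∀ t t', X t t' → ty t ≠ ty t')
    (h : Fin 9 → T × Fin 9) (hh : ∀ u v, W u v → Cop ty X (h u) (h v)) :
    ∃ t, ∀ u, h u = (t, u) := by
  classical
  have h1 : ∃ t, ∀ v, ∃ u, h u = (t, v) := by
    by_contra hcon
    push Not at hcon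
    choose m hm using hcon
    obtain ⟨u, v, huv, hc⟩ := not_colour (fun u => Equiv.swap
      (kap (m (h u).1) (rt (ty (h u).1))) (ty (h u).1) (kap (m (h u).1) (h u).2))
    have hu : (h u).2 ≠ m (h u).1 := fun h2 => hm (h u).1 u (Prod.ext rfl h2)
    have hv : (h v).2 ≠ m (h v).1 := fun h2 => hm (h v).1 v (Prod.ext rfl h2)
    rcases hh u v huv with ⟨h2, h3⟩ | ⟨h2, h3, h4⟩
    · rw [← h2] at hc hv
      exact kap_proper _ _ _ h3 hu hv ((Equiv.swap _ _).injective hc)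
    · rw [h2, h3, Equiv.swap_apply_left, Equiv.swap_apply_left] at hc
      exact hX _ _ h4 hc
  obtain ⟨t, ht⟩ := h1
  choose s hs using ht
  have hsi : Function.Injective s := by
    intro v v' hv
    have h2 := hs v
    rw [hv, hs v'] at h2
    exact (Prod.mk.inj h2).2.symm
  have hss : Function.Surjective s := Finite.surjective_of_injective hsi
  have h2 : ∀ u, ∃ v, h u = (t, v) := by
    intro u
    obtain ⟨v, rfl⟩ := hss u
    exact ⟨v, hs v⟩
  choose τ hτ using h2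
  have hτi : Function.Injective τ := by
    intro u u' huu
    obtain ⟨v, rfl⟩ := hss u
    obtain ⟨v', rfl⟩ := hss u'
    have h3 := hτ (s v)
    have h4 := hτ (s v')
    rw [hs] at h3 h4
    rw [(Prod.mk.inj h3).2, (Prod.mk.inj h4).2, huu]
  have hτh : ∀ i j, W i j → W (τ i) (τ j) := by
    intro i j hij
    have h3 := hh i j hij
    rw [hτ, hτ] at h3
    rcases h3 with ⟨-, h3⟩ | ⟨-, -, h3⟩
    · exact h3
    · exact absurd rfl (hX _ _ h3)
  exact ⟨t, fun u => by rw [hτ u, W_rigid τ hτi hτh u]⟩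

theorem cop_rol {T : Type} {ty : T → Fin 3} {X : T → T → Prop} (hX : ∀ t t', X t t' → ty t ≠ ty t')
    {i : Fin 3} {p : T × Fin 9} (h : Rol (Cop ty X) i p) : p.2 = rt i := by
  obtain ⟨k, h1, h2⟩ := h
  obtain ⟨t, ht⟩ := cop_hom hX k h1
  rw [← h2, ht]

theorem rol_cop {T : Type} (ty : T → Fin 3) (X : T → T → Prop) (i : Fin 3) (t : T) :
    Rol (Cop ty X) i (t, rt i) :=
  ⟨fun u => (t, u), fun _ _ h => Or.inl ⟨rfl, h⟩, rfl⟩

/-- the cross edges -/
def Crs {K : Type} (R : K → K → Prop) (t t' : K × Fin 3) : Prop :=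
  (t.2 = 0 ∧ t'.2 = 1 ∧ R t.1 t'.1) ∨ (t.2 = 1 ∧ t'.2 = 0 ∧ R t'.1 t.1) ∨
    (t.1 = t'.1 ∧ t.2 ≠ t'.2 ∧ (t.2 = 2 ∨ t'.2 = 2))

theorem crs_ne {K : Type} {R : K → K → Prop} (t t' : K × Fin 3) (h : Crs R t t') :
    t.2 ≠ t'.2 := by
  rcases h with ⟨h1, h2, -⟩ | ⟨h1, h2, -⟩ | ⟨-, h1, -⟩
  · rw [h1, h2]; decide
  · rw [h1, h2]; decide
  · exact h1

theorem crs_symm {K : Type} {R : K → K → Prop} (t t' : K × Fin 3) (h : Crs R t t') :
    Crs R t' t := by
  rcases h with ⟨h1, h2, h3⟩ | ⟨h1, h2, h3⟩ | ⟨h1, h2, h3⟩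
  · exact Or.inr (Or.inl ⟨h2, h1, h3⟩)
  · exact Or.inl ⟨h2, h1, h3⟩
  · exact Or.inr (Or.inr ⟨h1.symm, h2.symm, h3.symm⟩)

theorem cop_symm {T : Type} {ty : T → Fin 3} {X : T → T → Prop} (hX : ∀ t t', X t t' → X t' t)
    (p q : T × Fin 9) (h : Cop ty X p q) : Cop ty X q p := by
  rcases h with ⟨h1, h2⟩ | ⟨h1, h2, h3⟩
  · exact Or.inl ⟨h1.symm, W_symm _ _ h2⟩
  · exact Or.inr ⟨h2, h1, hX _ _ h3⟩

/-- the colours of the graph of copies -/
theorem cop_good {K T : Type} {R : K → K → Prop} (X : T → T → Prop) (ty : T → Fin 3) (f : T → K)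
    (hX : ∀ t t', X t t' → Crs R (f t, ty t) (f t', ty t')) :
    Gd R (Cop ty X) (fun p => f p.1) := by
  have hne : ∀ t t', X t t' → ty t ≠ ty t' := fun t t' h => crs_ne _ _ (hX t t' h)
  intro p q i j hpq hi hj
  have hi' := cop_rol hne hi
  have hj' := cop_rol hne hj
  rcases hpq with ⟨-, h2⟩ | ⟨h1, h2, h3⟩
  · rw [hi', hj'] at h2
    exact absurd h2 (rt_indep i j)
  · have e1 : ty p.1 = i := rt_injective (h1.symm.trans hi')
    have e2 : ty q.1 = j := rt_injective (h2.symm.trans hj')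
    have h4 := hX _ _ h3
    rw [e1, e2] at h4
    unfold Crs at h4
    simp only at h4
    refine ⟨fun h5 h6 => ?_, fun h5 h6 => ?_, fun h5 h6 => ?_⟩
    · subst h5; subst h6
      rcases h4 with ⟨-, -, h⟩ | ⟨h, -⟩ | ⟨-, -, h⟩
      · exact h
      · exact absurd h (by decide)
      · exact absurd h (by decide)
    · subst h5; subst h6
      rcases h4 with ⟨-, h, -⟩ | ⟨h, -⟩ | ⟨h, -⟩
      · exact absurd h (by decide)
      · exact absurd h (by decide)
      · exact h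
    · subst h5; subst h6
      rcases h4 with ⟨h, -⟩ | ⟨-, h, -⟩ | ⟨h, -⟩
      · exact absurd h (by decide)
      · exact absurd h (by decide)
      · exact h

/-- the arcs of the interpreted digraph -/
def ArcU {G : Type} (E : G → G → Prop) (z z' : G) : Prop :=
  ∃ x y, (Rol E 0 x ∧ Rol E 1 y ∧ Rol E 2 z ∧ Rol E 2 z') ∧ E x z ∧ E y z' ∧ E x y

section

variable {K G : Type} {R : K → K → Prop} {C : CU K G}

theorem arcU_col (hC : Gd R C.E C.c) {z z' : G} (h : ArcU C.E z z') : R (C.c z) (C.c z') := by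
  obtain ⟨x, y, ⟨hx, hy, hz, hz'⟩, h1, h2, h3⟩ := h
  have e1 := (hC x z 0 2 h1 hx hz).2.1 rfl rfl
  have e2 := (hC y z' 1 2 h2 hy hz').2.2 rfl rfl
  have e3 := (hC x y 0 1 h3 hx hy).1 rfl rfl
  rw [← e1, ← e2]
  exact e3

/-- no loops -/
theorem irreflU (hC : Gd R C.E C.c) (hR : ∀ a, ¬ R a a) (x : G) : ¬ C.E x x := by
  intro h
  have hr : ∀ i, Rol C.E i x := fun i => ⟨fun _ => x, fun _ _ _ => h, rfl⟩
  exact hR _ ((hC x x 0 1 h (hr 0) (hr 1)).1 rfl rfl)

/-- A family of vertices which represents the template. -/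
theorem IsGenU.reps (hC : IsGenU R C) {T : Type} [Countable T] (F : T → T → Prop) (c : T → K)
    (hF : ∀ a b, F a b → R (c a) (c b)) :
    ∃ g : T → G, (∀ a, C.c (g a) = c a) ∧ ∀ a b, F a b → ArcU C.E (g a) (g b) := by
  let X : T × Fin 3 → T × Fin 3 → Prop := Crs F
  let ty : T × Fin 3 → Fin 3 := fun t => t.2
  let Y : CU K ((T × Fin 3) × Fin 9) := ⟨Cop ty X, cop_symm (fun _ _ h => crs_symm _ _ h),
    fun p => c p.1.1⟩
  have hY : Gd R Y.E Y.c := by
    refine cop_good X ty (fun t => c t.1) ?_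
    rintro t t' (⟨h1, h2, h3⟩ | ⟨h1, h2, h3⟩ | ⟨h1, h2, h3⟩)
    · exact Or.inl ⟨h1, h2, hF _ _ h3⟩
    · exact Or.inr (Or.inl ⟨h1, h2, hF _ _ h3⟩)
    · exact Or.inr (Or.inr ⟨congrArg c h1, h2, h3⟩)
  obtain ⟨e, he⟩ := hC.embed' Y hY
  have hmono : ∀ p q, Y.E p q → C.E (e p) (e q) := fun p q h => (he.arc p q).1 h
  have hrol : ∀ i (t : T × Fin 3), Rol C.E i (e (t, rt i)) := fun i t =>
    (rol_cop ty X i t).mono e hmono
  have h02 : (0 : Fin 3) ≠ 2 := by decide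
  have h12 : (1 : Fin 3) ≠ 2 := by decide
  refine ⟨fun a => e ((a, 2), rt 2), fun a => he.col _, fun a b hab => ?_⟩
  refine ⟨e ((a, 0), rt 0), e ((b, 1), rt 1), ⟨hrol _ _, hrol _ _, hrol _ _, hrol _ _⟩,
    hmono _ _ (Or.inr ⟨rfl, rfl, Or.inr (Or.inr ⟨rfl, h02, Or.inr rfl⟩)⟩),
    hmono _ _ (Or.inr ⟨rfl, rfl, Or.inr (Or.inr ⟨rfl, h12, Or.inr rfl⟩)⟩),
    hmono _ _ (Or.inr ⟨rfl, rfl, Or.inl ⟨rfl, rfl, hab⟩⟩)⟩

theorem pp_rol (E : G → G → Prop) {I : Type} (i : Fin 3) (a : I) :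
    @PPDefinable Dig G (digStr E) I {x : I → G | Rol E i (x a)} := by
  let _ := digStr E
  have h1 : PPDefinable Dig (⋂ p : {p : Fin 9 × Fin 9 // W p.1 p.2},
      {x : I ⊕ Fin 9 → G | E (x (Sum.inr p.1.1)) (x (Sum.inr p.1.2))}) :=
    pp_iInter fun p => pp_arc E _ _
  have h2 : PPDefinable Dig {x : I ⊕ Fin 9 → G | x (Sum.inr (rt i)) = x (Sum.inl a)} := pp_eq _ _
  have h3 := pp_exists (pp_inter h1 h2)
  convert h3 using 1
  ext x
  simp only [mem_ofPred_eq, mem_inter_iff, mem_iInter, Sum.elim_inr, Sum.elim_inl]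
  constructor
  · rintro ⟨h, h4, h5⟩
    exact ⟨h, fun p => h4 _ _ p.2, h5⟩
  · rintro ⟨h, h4, h5⟩
    exact ⟨h, fun u v huv => h4 ⟨(u, v), huv⟩, h5⟩

theorem pp_arcU (E : G → G → Prop) {I : Type} (a b : I) :
    @PPDefinable Dig G (digStr E) I {x : I → G | ArcU E (x a) (x b)} := by
  let _ := digStr E
  have h1 : PPDefinable Dig {x : I ⊕ Fin 2 → G | Rol E 0 (x (Sum.inr 0))} := pp_rol E 0 _
  have h2 : PPDefinable Dig {x : I ⊕ Fin 2 → G | Rol E 1 (x (Sum.inr 1))} := pp_rol E 1 _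
  have h3 : PPDefinable Dig {x : I ⊕ Fin 2 → G | Rol E 2 (x (Sum.inl a))} := pp_rol E 2 _
  have h4 : PPDefinable Dig {x : I ⊕ Fin 2 → G | Rol E 2 (x (Sum.inl b))} := pp_rol E 2 _
  have h5 : PPDefinable Dig {x : I ⊕ Fin 2 → G | E (x (Sum.inr 0)) (x (Sum.inl a))} :=
    pp_arc E _ _
  have h6 : PPDefinable Dig {x : I ⊕ Fin 2 → G | E (x (Sum.inr 1)) (x (Sum.inl b))} :=
    pp_arc E _ _
  have h7 : PPDefinable Dig {x : I ⊕ Fin 2 → G | E (x (Sum.inr 0)) (x (Sum.inr 1))} :=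
    pp_arc E _ _
  have h8 := pp_exists (pp_inter (pp_inter h1 (pp_inter h2 (pp_inter h3 h4)))
    (pp_inter h5 (pp_inter h6 h7)))
  convert h8 using 1
  ext x
  simp only [mem_ofPred_eq, mem_inter_iff, Sum.elim_inr, Sum.elim_inl]
  constructor
  · rintro ⟨u, v, h⟩
    exact ⟨![u, v], h⟩
  · rintro ⟨y, h⟩
    exact ⟨y 0, y 1, h⟩

/-- The generic coloured graph pp-constructs the template. -/
theorem ppConstructs_dig [Countable K] (hC : IsGenU R C) :
    @PPConstructs Dig G (digStr C.E) Dig K (digStr R) := by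
  let _ : Dig.Structure G := digStr C.E
  let _ : Dig.Structure K := digStr R
  let P : Dig.Structure (Fin 1 → G) := digStr (fun w w' => ArcU C.E (w 0) (w' 0))
  refine ⟨1, P, Nat.one_pos, ?_, ?_, ?_⟩
  · intro n S
    cases S with
    | arc =>
      have h1 : PPDefinable Dig {x : Fin 2 × Fin 1 → G | ArcU C.E (x (0, 0)) (x (1, 0))} :=
        pp_arcU C.E _ _
      exact h1
  · refine ⟨{ toFun := fun w => C.c (w 0)
              map_fun' := fun f => isEmptyElim f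
              map_rel' := ?_ }⟩
    intro n S w hw
    cases S with
    | arc => exact arcU_col hC.good hw
  · obtain ⟨g, -, hg⟩ := hC.reps R id (fun _ _ h => h)
    refine ⟨{ toFun := fun a _ => g a
              map_fun' := fun f => isEmptyElim f
              map_rel' := ?_ }⟩
    intro n S w hw
    cases S with
    | arc => exact hg _ _ hw

/-- Homomorphisms to the generic coloured graph. -/
theorem IsGenU.csp_iff (hC : IsGenU R C) {X : Type} [Countable X] (F : X → X → Prop) :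
    (∃ h : X → G, IsHomo F C.E h) ↔
      ∃ c : X → K, Gd R (fun x y => F x y ∨ F y x) c := by
  constructor
  · rintro ⟨h, hh⟩
    have hm : ∀ x y, (F x y ∨ F y x) → C.E (h x) (h y) := by
      rintro x y (h1 | h1)
      · exact hh _ _ h1
      · exact C.symm _ _ (hh _ _ h1)
    exact ⟨fun x => C.c (h x), fun x y i j h1 h2 h3 =>
      hC.good _ _ i j (hm _ _ h1) (h2.mono h hm) (h3.mono h hm)⟩
  · rintro ⟨c, hc⟩
    obtain ⟨e, he⟩ := hC.embed' (X := X) ⟨fun x y => F x y ∨ F y x, fun _ _ h => h.symm, c⟩ hc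
    exact ⟨e, fun u v huv => (he.arc u v).1 (Or.inl huv)⟩

end

end Pool.Agent.H17.UG
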