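import Mathlib
import Pool.Agent.H17.UG.PPC
import Pool.Agent.H17.DG.FB

set_option autoImplicit false

/-!
# Homogeneity and algebraicity of the generic coloured graph
-/

namespace Pool.Agent.H17.UG

open Set
open FirstOrder FirstOrder.Language Pool.Agent.H74.Stub
open Pool.Agent.H17.DG (Dig digStr ArcRel IsHomo pp_arc FinRel IsReduct FinitelyBounded IsoT
  homog_tuple homog_of_tuple IsAut NoAlgebraicity)

/-- Symbols of the expansion. -/
inductive RelU (LB : FirstOrder.Language.{0, 0}) : ℕ → Type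
  | arc : RelU LB 2
  | same : RelU LB 2
  | pz (Z : {Z : Set (Fin 9) // Z ≠ univ}) : RelU LB 9
  | pull {n : ℕ} (R : LB.Relations n) : RelU LB n

/-- The language of the expansion. -/
def LU (LB : FirstOrder.Language.{0, 0}) : FirstOrder.Language.{0, 0} :=
  ⟨fun _ => Empty, RelU LB⟩

instance (LB : FirstOrder.Language.{0, 0}) : (LU LB).IsRelational :=
  fun _ => inferInstanceAs (IsEmpty Empty)

theorem finRel_LU {LB : FirstOrder.Language.{0, 0}} (h : FinRel LB) :
    FinRel (LU LB) := by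
  refine ⟨inferInstance, ?_⟩
  have := h.2
  let f : Option (Option ({Z : Set (Fin 9) // Z ≠ univ} ⊕ (Σ n, LB.Relations n))) →
      Σ n, (LU LB).Relations n := fun o =>
    match o with
    | none => ⟨_, RelU.arc⟩
    | some none => ⟨_, RelU.same⟩
    | some (some (Sum.inl Z)) => ⟨_, RelU.pz Z⟩
    | some (some (Sum.inr r)) => ⟨_, RelU.pull r.2⟩
  refine Finite.of_surjective f ?_
  rintro ⟨n, R⟩
  cases R with
  | arc => exact ⟨none, rfl⟩
  | same => exact ⟨some none, rfl⟩
  | pz Z => exact ⟨some (some (Sum.inl Z)), rfl⟩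
  | pull R => exact ⟨some (some (Sum.inr ⟨_, R⟩)), rfl⟩

/-- The expansion. -/
@[reducible] def strU (LB : FirstOrder.Language.{0, 0}) {K G : Type} [LB.Structure K]
    (C : CU K G) : (LU LB).Structure G where
  funMap := fun f => f.elim
  RelMap := fun {n} R v => match n, R, v with
    | _, RelU.arc, v => C.E (v 0) (v 1)
    | _, RelU.same, v => C.c (v 0) = C.c (v 1)
    | _, RelU.pz Z, v => PZ C.E Z.1 v
    | _, RelU.pull R, v => Structure.RelMap R (fun i => C.c (v i))

section

variable {LB : FirstOrder.Language.{0, 0}} {K G : Type} [LB.Structure K] {C : CU K G}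
  {R : K → K → Prop}

/-- An isomorphism of tuples changes the colours by an automorphism of the finitely bounded
structure. -/
theorem sameU_of_isoT [LB.IsRelational] (hB : LB.IsUltrahomogeneous K) {H : Type} {D : CU K H}
    {I : Type} [Finite I] {a : I → G} {b : I → H}
    (h : @IsoT (LU LB) G H (strU LB C) (strU LB D) I a b) :
    ∃ g : LB.Equiv K K, SameU C D g a b := by
  let _ : (LU LB).Structure G := strU LB C
  let _ : (LU LB).Structure H := strU LB D
  obtain ⟨g, hg⟩ := homog_tuple hB (fun i => C.c (a i)) (fun i => D.c (b i))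
    ⟨fun i j => h.rel (n := 2) RelU.same ![i, j], fun R t => h.rel (RelU.pull R) t⟩
  exact ⟨g, h.eq, fun i j => h.rel (n := 2) RelU.arc ![i, j],
    fun Z hZ t => h.rel (n := 9) (RelU.pz ⟨Z, hZ⟩) t, fun i => (hg i).symm⟩

/-- The converse. -/
theorem isoT_of_sameU {H : Type} {D : CU K H} {I : Type} {a : I → G} {b : I → H} {β : K → K}
    (hβ : Function.Injective β)
    (hβ' : ∀ {n : ℕ} (R : LB.Relations n) (x : Fin n → K), Structure.RelMap R x ↔
      Structure.RelMap R (fun i => β (x i))) (h : SameU C D β a b) :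
    @IsoT (LU LB) G H (strU LB C) (strU LB D) I a b := by
  refine @IsoT.mk (LU LB) G H (strU LB C) (strU LB D) I a b h.eq ?_
  intro n R t
  cases R with
  | arc => exact h.arc _ _
  | same =>
    show C.c (a (t 0)) = C.c (a (t 1)) ↔ D.c (b (t 0)) = D.c (b (t 1))
    rw [h.col, h.col, hβ.eq_iff]
  | pz Z => exact h.pz Z.1 Z.2 t
  | pull R =>
    show Structure.RelMap R (fun i => C.c (a (t i))) ↔ Structure.RelMap R (fun i => D.c (b (t i)))
    simp only [h.col]
    exact hβ' R _

theorem R_aut [LB.IsRelational] (hR : @IsReduct Dig LB K (digStr R) _) (g : LB.Equiv K K)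
    (a b : K) (h : R a b) : R (g a) (g b) := by
  let _ : Dig.Structure K := digStr R
  obtain ⟨φ, -, hφ⟩ := hR
  have h1 := (hφ 2 ArcRel.arc ![a, b]).1 h
  have h2 := (g.map_rel (φ 2 ArcRel.arc) ![a, b]).2 h1
  have h3 := (hφ 2 ArcRel.arc (g ∘ ![a, b])).2 h2
  exact h3

theorem aut_of_sameU [LB.IsRelational] (hC : IsGenU R C) [Countable G]
    (hR : @IsReduct Dig LB K (digStr R) _) (g : LB.Equiv K K) {I : Type} [Finite I]
    {a b : I → G} (h : SameU C C g a b) :
    ∃ σ : G ≃ G, (∀ i, σ (a i) = b i) ∧ SameU C C g id σ := by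
  have h' : SameU C C g.toEquiv a b := h
  obtain ⟨σ, h1, h2⟩ := hC.aut g.toEquiv (R_aut hR g) (R_aut hR g.symm) a b h'
  exact ⟨σ, h1, h2⟩

theorem homogU [LB.IsRelational] (hB : LB.IsUltrahomogeneous K) (hC : IsGenU R C)
    [Countable G] (hR : @IsReduct Dig LB K (digStr R) _) :
    @FirstOrder.Language.IsUltrahomogeneous (LU LB) G (strU LB C) := by
  let _ := strU LB C
  apply homog_of_tuple
  intro I hI a b hab
  obtain ⟨g, hg⟩ := sameU_of_isoT hB hab
  obtain ⟨σ, h1, h2⟩ := aut_of_sameU hC hR g hg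
  have h3 := isoT_of_sameU (LB := LB) g.injective (fun R x => (g.map_rel R x).symm) h2
  exact ⟨{ toEquiv := σ
           map_fun' := fun f => isEmptyElim f
           map_rel' := fun R x => (h3.rel R x).symm }, h1⟩

theorem reductU : @IsReduct Dig (LU LB) G (digStr C.E) (strU LB C) := by
  let _ := strU LB C
  let _ := digStr C.E
  refine ⟨fun n R => match n, R with | _, ArcRel.arc => RelU.arc, ?_, ?_⟩
  · intro n R R' h
    cases R
    cases R'
    rfl
  · intro n R x
    cases R with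
    | arc => exact Iff.rfl

/-! ### algebraicity -/

/-- In a free amalgam the first part keeps its type. -/
theorem Amalg.same1 {K X1 X2 Y I J : Type} {C1 : CU K X1} {E2 : X2 → X2 → Prop} {D : CU K Y}
    {p1 : I → X1} {p2 : I → X2} {ι1 : X1 → Y} {ι2 : X2 → Y}
    (h : Amalg C1.E E2 D.E p1 p2 ι1 ι2) (hc : ∀ x, D.c (ι1 x) = C1.c x) (a : J → X1) :
    SameU C1 D id a (fun j => ι1 (a j)) :=
  ⟨fun _ _ => h.inj1.eq_iff.symm, fun _ _ => (h.edge1 _ _).symm,
    fun Z hZ t => (h.pz1 Z hZ _).symm, fun i => hc (a i)⟩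

theorem SameU.trans {K X Y Z I : Type} {C : CU K X} {D : CU K Y} {D' : CU K Z} {β γ : K → K}
    {p : I → X} {q : I → Y} {r : I → Z} (h : SameU C D β p q) (h' : SameU D D' γ q r) :
    SameU C D' (fun a => γ (β a)) p r :=
  ⟨fun i j => (h.eq i j).trans (h'.eq i j), fun i j => (h.arc i j).trans (h'.arc i j),
    fun Z hZ t => (h.pz Z hZ t).trans (h'.pz Z hZ t), fun i => by rw [h'.col, h.col]⟩

theorem noAlgU (hC : IsGenU R C) [Countable G] : NoAlgebraicity C.E := by
  classical
  intro S x hx hfin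
  let Ys : Finset G := hfin.toFinset
  have hYs : ∀ y, y ∈ Ys ↔ ∃ g : G ≃ G, IsAut C.E g ∧ (∀ s ∈ S, g s = s) ∧ g x = y := by
    intro y
    rw [Set.Finite.mem_toFinset, mem_ofPred_eq]
  let ι1 : G → G ⊕ {g // g ∉ S} := Sum.inl
  let ι2 : G → G ⊕ {g // g ∉ S} := fun g => if h : g ∈ S then Sum.inl g else Sum.inr ⟨g, h⟩
  let E' : G ⊕ {g // g ∉ S} → G ⊕ {g // g ∉ S} → Prop := fun a b =>
    (∃ x y, ι1 x = a ∧ ι1 y = b ∧ C.E x y) ∨ (∃ x y, ι2 x = a ∧ ι2 y = b ∧ C.E x y)
  let p1 : {g // g ∈ S} → G := Subtype.val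
  have hι2 : ∀ g, g ∈ S → ι2 g = Sum.inl g := fun g hg => dif_pos hg
  have hι2' : ∀ g (hg : g ∉ S), ι2 g = Sum.inr ⟨g, hg⟩ := fun g hg => dif_neg hg
  have ham : Amalg C.E C.E E' p1 p1 ι1 ι2 := by
    refine ⟨Sum.inl_injective, ?_, fun i => (hι2 _ i.2).symm, ?_, fun a b => Iff.rfl, C.symm,
      C.symm, fun _ _ => Iff.rfl, fun _ _ _ => Iff.rfl⟩
    · intro a b hab
      by_cases ha : a ∈ S <;> by_cases hb : b ∈ S
      · rw [hι2 a ha, hι2 b hb] at hab
        exact Sum.inl_injective hab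
      · rw [hι2 a ha, hι2' b hb] at hab
        exact absurd hab (by simp)
      · rw [hι2' a ha, hι2 b hb] at hab
        exact absurd hab (by simp)
      · rw [hι2' a ha, hι2' b hb] at hab
        exact congrArg Subtype.val (Sum.inr_injective hab)
    · intro a b hab
      by_cases hb : b ∈ S
      · rw [hι2 b hb] at hab
        exact ⟨⟨b, hb⟩, Sum.inl_injective hab, rfl⟩
      · rw [hι2' b hb] at hab
        exact absurd hab (by simp [ι1])
  let c' : G ⊕ {g // g ∉ S} → K := Sum.elim C.c (fun g => C.c g.1)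
  have hc1 : ∀ g, c' (ι1 g) = C.c g := fun _ => rfl
  have hc2 : ∀ g, c' (ι2 g) = C.c g := by
    intro g
    by_cases hg : g ∈ S
    · rw [hι2 g hg]; rfl
    · rw [hι2' g hg]; rfl
  let D : CU K (G ⊕ {g // g ∉ S}) := ⟨E', ham.esymm, c'⟩
  have hD : Gd R D.E (fun y => id (D.c y)) := by
    rintro a b i j (⟨y, z, rfl, rfl, h1⟩ | ⟨y, z, rfl, rfl, h1⟩) h2 h3
    · rw [ham.rol1] at h2 h3
      exact hC.good _ _ i j h1 h2 h3
    · rw [ham.symm.rol1] at h2 h3
      show Con R i j (c' (ι2 y)) (c' (ι2 z))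
      rw [hc2, hc2]
      exact hC.good _ _ i j h1 h2 h3
  let I := {g : G // g ∈ S ∨ g ∈ Ys}
  have hI : Finite I := by
    have : {g : G | g ∈ S ∨ g ∈ Ys}.Finite := (S.finite_toSet).union (Ys.finite_toSet)
    exact this.to_subtype
  have hinit : SameU D C id (fun i : I => ι1 i.1) (fun i => i.1) := by
    have h1 := Amalg.same1 (D := D) (C1 := C) ham hc1 (fun i : I => i.1)
    exact ⟨fun i j => (h1.eq i j).symm, fun i j => (h1.arc i j).symm,
      fun Z hZ t => (h1.pz Z hZ t).symm, fun i => rfl⟩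
  obtain ⟨v, hv⟩ := hC.ext _ D id hD I hI _ _ hinit (ι2 x)
  have hvne : ∀ i : I, v ≠ i.1 := by
    intro i h
    have h1 := (hv.eq none (some i)).2 h
    have h2 : ι2 x = ι1 i.1 := h1
    rw [hι2' x hx] at h2
    exact absurd h2 (by simp [ι1])
  have hsame : SameU C C (Equiv.refl K) (fun o : Option {g // g ∈ S} => o.elim x (fun s => s.1))
      (fun o : Option {g // g ∈ S} => o.elim v (fun s => s.1)) := by
    let f : Option {g // g ∈ S} → Option I := fun o => o.map (fun s => ⟨s.1, Or.inl s.2⟩)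
    have h1 := hv.comp f
    have h2 := Amalg.same1 (D := D) (C1 := C) ham.symm hc2
      (fun o : Option {g // g ∈ S} => o.elim x (fun s => s.1))
    have e1 : (fun o => (f o).elim v (fun i : I => i.1)) =
        fun o : Option {g // g ∈ S} => o.elim v (fun s => s.1) := by
      funext o
      cases o <;> rfl
    have e2 : (fun o => (f o).elim (ι2 x) (fun i : I => ι1 i.1)) =
        fun o : Option {g // g ∈ S} => ι2 (o.elim x (fun s => s.1)) := by
      funext o
      rcases o with _ | s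
      · rfl
      · exact (hι2 s.1 s.2).symm
    rw [e1, e2] at h1
    exact h2.trans h1
  obtain ⟨σ, h1, h2⟩ := hC.aut (Equiv.refl K) (fun a b h => h) (fun a b h => h) _ _ hsame
  have h3 : v ∈ Ys := (hYs v).2 ⟨σ, fun u v => (h2.arc u v).symm, fun s hs => h1 (some ⟨s, hs⟩),
    h1 none⟩
  exact hvne ⟨v, Or.inr h3⟩ rfl

end

end Pool.Agent.H17.UG
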