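import Mathlib
import Pool.Agent.H17.UG.Homog

set_option autoImplicit false

/-!
# Finite boundedness of the generic coloured graph
-/

namespace Pool.Agent.H17.UG

open Set
open FirstOrder FirstOrder.Language Pool.Agent.H74.Stub
open Pool.Agent.H17.DG (Dig digStr ArcRel IsHomo pp_arc FinRel IsReduct FinitelyBounded IsoT
  homog_tuple homog_of_tuple IsAut NoAlgebraicity LocE fb_of_local exists_bound two_eq)

/-- the proper subsets of `Fin 9` -/
abbrev PS : Type := {Z : Set (Fin 9) // Z ≠ univ}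

section

variable (LB : FirstOrder.Language.{0, 0}) {Y : Type} [sY : (LU LB).Structure Y]

/-- edges -/
def AYu (a b : Y) : Prop := Structure.RelMap (L := LU LB) (n := 2) RelU.arc ![a, b]

/-- same colour -/
def SYu (a b : Y) : Prop := Structure.RelMap (L := LU LB) (n := 2) RelU.same ![a, b]

/-- the relations `PZ` -/
def PYu (Z : PS) (g : Fin 9 → Y) : Prop := Structure.RelMap (L := LU LB) (n := 9) (RelU.pz Z) g

variable {LB}

/-- pulled back relations -/
def QYu {n : ℕ} (R : LB.Relations n) (t : Fin n → Y) : Prop :=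
  Structure.RelMap (L := LU LB) (n := n) (RelU.pull R) t

theorem AYu_iff (x : Fin 2 → Y) : AYu LB (x 0) (x 1) ↔
    Structure.RelMap (L := LU LB) (n := 2) RelU.arc x := by
  unfold AYu
  rw [two_eq]

theorem SYu_iff (x : Fin 2 → Y) : SYu LB (x 0) (x 1) ↔
    Structure.RelMap (L := LU LB) (n := 2) RelU.same x := by
  unfold SYu
  rw [two_eq]

variable {K G : Type} [LB.Structure K] {C : CU K G} {I : Type} {y : I → Y} {z : I → G}

theorem U1 (h : @IsoT (LU LB) Y G sY (strU LB C) I y z) (i j : I) :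
    AYu LB (y i) (y j) ↔ C.E (z i) (z j) := by
  let _ : (LU LB).Structure G := strU LB C
  have h1 := h.rel (n := 2) RelU.arc ![i, j]
  rw [← AYu_iff] at h1
  exact h1

theorem U2 (h : @IsoT (LU LB) Y G sY (strU LB C) I y z) (i j : I) :
    SYu LB (y i) (y j) ↔ C.c (z i) = C.c (z j) := by
  let _ : (LU LB).Structure G := strU LB C
  have h1 := h.rel (n := 2) RelU.same ![i, j]
  rw [← SYu_iff] at h1
  exact h1

theorem U3 (h : @IsoT (LU LB) Y G sY (strU LB C) I y z) (Z : PS) (t : Fin 9 → I) :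
    PYu LB Z (fun u => y (t u)) ↔ PZ C.E Z.1 (fun u => z (t u)) := by
  let _ : (LU LB).Structure G := strU LB C
  exact h.rel (n := 9) (RelU.pz Z) t

theorem U4 (h : @IsoT (LU LB) Y G sY (strU LB C) I y z) {n : ℕ} (R : LB.Relations n)
    (t : Fin n → I) : QYu R (fun u => y (t u)) ↔ Structure.RelMap R (fun u => C.c (z (t u))) := by
  let _ : (LU LB).Structure G := strU LB C
  exact h.rel (n := n) (RelU.pull R) t

/-- The colouring of `Y`. -/
theorem exists_colU (hLB : FinRel LB) {ι : Type} (N : ι → Type)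
    [∀ i, Finite (N i)] [∀ i, LB.Structure (N i)]
    (hfb : ∀ (Y : Type) [Finite Y] [LB.Structure Y],
      Nonempty (LB.Embedding Y K) ↔ ∀ i, IsEmpty (LB.Embedding (N i) Y))
    [Finite Y] {m : ℕ} (hm3 : 3 ≤ m) (hm4 : ∀ (n : ℕ) (_ : LB.Relations n), 2 * n ≤ m)
    (hm5 : ∀ i, Nat.card (N i) ≤ m) (hloc : @LocE (LU LB) m Y G sY (strU LB C)) :
    ∃ c : Y → K, (∀ a b, SYu LB a b ↔ c a = c b) ∧
      ∀ (n : ℕ) (R : LB.Relations n) (t : Fin n → Y), QYu R t ↔
        Structure.RelMap R (fun i => c (t i)) := by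
  classical
  let _ : (LU LB).Structure G := strU LB C
  have hrel := hLB.1
  have S_refl : ∀ a : Y, SYu LB a a := by
    intro a
    obtain ⟨z, hz⟩ := hloc (Fin 3) inferInstance (by simpa using hm3) ![a, a, a]
    exact (U2 hz 0 1).2 (by
      have := (hz.eq 0 1).1 rfl
      rw [this])
  have S_symm : ∀ a b : Y, SYu LB a b → SYu LB b a := by
    intro a b h
    obtain ⟨z, hz⟩ := hloc (Fin 3) inferInstance (by simpa using hm3) ![a, b, a]
    exact (U2 hz 1 0).2 ((U2 hz 0 1).1 h).symm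
  have S_trans : ∀ a b c : Y, SYu LB a b → SYu LB b c → SYu LB a c := by
    intro a b c h h'
    obtain ⟨z, hz⟩ := hloc (Fin 3) inferInstance (by simpa using hm3) ![a, b, c]
    exact (U2 hz 0 2).2 (((U2 hz 0 1).1 h).trans ((U2 hz 1 2).1 h'))
  have P_inv : ∀ {n : ℕ} (R : LB.Relations n) (t t' : Fin n → Y),
      (∀ i, SYu LB (t i) (t' i)) → QYu R t → QYu R t' := by
    intro n R t t' h hP
    obtain ⟨z, hz⟩ := hloc (Fin 2 × Fin n) inferInstance (by
      simp only [Nat.card_eq_fintype_card, Fintype.card_prod, Fintype.card_fin]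
      exact hm4 n R) (fun q => ![t, t'] q.1 q.2)
    have h1 : ∀ i, C.c (z (0, i)) = C.c (z (1, i)) := fun i => (U2 hz (0, i) (1, i)).1 (h i)
    have h2 := (U4 hz R (fun i => (0, i))).1 hP
    refine (U4 hz R (fun i => (1, i))).2 ?_
    have e : (fun i => C.c (z (1, i))) = fun i => C.c (z (0, i)) := funext fun i => (h1 i).symm
    rw [e]
    exact h2
  let st : Setoid Y :=
    { r := fun a b => SYu LB a b
      iseqv := ⟨S_refl, fun h => S_symm _ _ h, fun h h' => S_trans _ _ _ h h'⟩ }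
  let Qt := Quotient st
  have hout : ∀ t : Y, SYu LB (Quotient.out (Quotient.mk st t)) t := fun t =>
    Quotient.exact (Quotient.out_eq (Quotient.mk st t))
  let sQ : LB.Structure Qt :=
    { funMap := fun f => isEmptyElim f
      RelMap := fun {n} R q => QYu R (fun i => (Quotient.out (q i))) }
  have hQfin : Finite Qt := inferInstance
  have hQemb : Nonempty (LB.Embedding Qt K) := by
    rw [hfb]
    intro i
    refine ⟨fun ε => ?_⟩
    obtain ⟨z, hz⟩ := hloc (N i) inferInstance (hm5 i) (fun q => (Quotient.out (ε q)))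
    have hNi : Nonempty (LB.Embedding (N i) K) := by
      refine ⟨{ toFun := fun a => C.c (z a)
                inj' := ?_
                map_fun' := fun f => isEmptyElim f
                map_rel' := ?_ }⟩
      · intro a b hab
        have h1 := (U2 hz a b).2 hab
        apply ε.injective
        rw [← Quotient.out_eq (ε a), ← Quotient.out_eq (ε b)]
        exact Quotient.sound h1
      · intro n R x
        have h1 := U4 hz R x
        have h3 := ε.map_rel R x
        exact h1.symm.trans h3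
    exact ((hfb (N i)).1 hNi i).false (FirstOrder.Language.Embedding.refl LB (N i))
  obtain ⟨β⟩ := hQemb
  refine ⟨fun a => β (Quotient.mk st a), fun a b => ?_, fun n R t => ?_⟩
  · constructor
    · intro h
      exact congrArg β (Quotient.sound h)
    · intro h
      exact Quotient.exact (β.injective h)
  · have h1 := β.map_rel R (fun i => Quotient.mk st (t i))
    constructor
    · intro h2
      refine h1.2 ?_
      exact P_inv R _ _ (fun i => S_symm _ _ (hout (t i))) h2
    · intro h2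
      exact P_inv R _ _ (fun i => hout (t i)) (h1.1 h2)

/-! ### The fresh copies -/

variable (LB Y) in
/-- the index set of the fresh copies -/
abbrev Bx : Type := {b : PS × (Fin 9 → Y) // PYu LB b.1 b.2}

/-- edges of the enlarged graph -/
def EF : Y ⊕ (Bx LB Y × Fin 9) → Y ⊕ (Bx LB Y × Fin 9) → Prop
  | Sum.inl a, Sum.inl a' => AYu LB a a'
  | Sum.inl a, Sum.inr q => q.2 ∈ q.1.1.1.1 ∧ ∃ v, v ∉ q.1.1.1.1 ∧ W q.2 v ∧ q.1.1.2 v = a
  | Sum.inr q, Sum.inl a => q.2 ∈ q.1.1.1.1 ∧ ∃ v, v ∉ q.1.1.1.1 ∧ W q.2 v ∧ q.1.1.2 v = a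
  | Sum.inr q, Sum.inr q' => q.1 = q'.1 ∧ q.2 ∈ q.1.1.1.1 ∧ q'.2 ∈ q.1.1.1.1 ∧ W q.2 q'.2

open Classical in
/-- the points of a copy and of its boundary -/
noncomputable def pb (b : Bx LB Y) (v : Fin 9) : Y ⊕ (Bx LB Y × Fin 9) :=
  if v ∈ b.1.1.1 then Sum.inr (b, v) else Sum.inl (b.1.2 v)

theorem pb_in (b : Bx LB Y) {v : Fin 9} (h : v ∈ b.1.1.1) : pb b v = Sum.inr (b, v) := if_pos h

theorem pb_out (b : Bx LB Y) {v : Fin 9} (h : v ∉ b.1.1.1) : pb b v = Sum.inl (b.1.2 v) := if_neg h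

theorem EF_inr (b : Bx LB Y) (u : Fin 9) (q : Y ⊕ (Bx LB Y × Fin 9)) :
    EF (Sum.inr (b, u)) q ↔ u ∈ b.1.1.1 ∧ ∃ v, W u v ∧ q = pb b v := by
  rcases q with a | ⟨b', u'⟩
  · constructor
    · rintro ⟨h1, v, h2, h3, h4⟩
      refine ⟨h1, v, h3, ?_⟩
      rw [pb_out b h2, ← h4]
    · rintro ⟨h1, v, h2, h3⟩
      by_cases hv : v ∈ b.1.1.1
      · rw [pb_in b hv] at h3
        exact absurd h3 (by simp)
      · rw [pb_out b hv] at h3
        exact ⟨h1, v, hv, h2, (Sum.inl_injective h3).symm⟩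
  · constructor
    · rintro ⟨h1, h2, h3, h4⟩
      have h1' : b = b' := h1
      subst h1'
      exact ⟨h2, u', h4, (pb_in b h3).symm⟩
    · rintro ⟨h1, v, h2, h3⟩
      by_cases hv : v ∈ b.1.1.1
      · rw [pb_in b hv] at h3
        have h4 := Prod.mk.inj (Sum.inr_injective h3)
        obtain ⟨rfl, rfl⟩ := h4
        exact ⟨rfl, h1, hv, h2⟩
      · rw [pb_out b hv] at h3
        exact absurd h3 (by simp)

theorem EF_symm (hs : ∀ a b : Y, AYu LB a b → AYu LB b a) (p q : Y ⊕ (Bx LB Y × Fin 9))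
    (h : EF p q) : EF q p := by
  rcases p with a | ⟨b, u⟩ <;> rcases q with a' | ⟨b', u'⟩
  · exact hs _ _ h
  · exact h
  · exact h
  · obtain ⟨h1, h2, h3, h4⟩ := h
    have h1' : b = b' := h1
    subst h1'
    exact ⟨rfl, h3, h2, W_symm _ _ h4⟩

theorem pz_fresh (Z : PS) (g : Fin 9 → Y)
    (hl : @LocE (LU LB) 18 Y G sY (strU LB C)) :
    PZ EF Z.1 (fun u => (Sum.inl (g u) : Y ⊕ (Bx LB Y × Fin 9))) ↔ PYu LB Z g := by
  classical
  constructor
  swap
  · intro h
    let b : Bx LB Y := ⟨(Z, g), h⟩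
    refine ⟨pb b, fun u hu => pb_out b hu, fun u hu v huv => ?_⟩
    rw [pb_in b hu, EF_inr]
    exact ⟨hu, v, huv, rfl⟩
  let _ : (LU LB).Structure G := strU LB C
  rintro ⟨h, h1, h2⟩
  have h18 : Nat.card (Fin 9 ⊕ Fin 9) ≤ 18 := by simp
  -- the values in `Y`
  let h' : Fin 9 → Y := fun u => Sum.elim id (fun _ => g u) (h u)
  have hh : ∀ u a, h u = Sum.inl a → h' u = a := by
    intro u a hu
    show Sum.elim id (fun _ => g u) (h u) = a
    rw [hu]
    rfl
  have hZ : ∀ u b w, h u = Sum.inr (b, w) → u ∈ Z.1 := by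
    intro u b w hu
    by_contra hn
    rw [h1 u hn] at hu
    exact absurd hu (by simp)
  let D : Bx LB Y → Set (Fin 9) := fun b => {u | ∃ w, h u = Sum.inr (b, w)}
  have hD : ∀ b, D b ≠ univ := by
    intro b hb
    apply Z.2
    rw [eq_univ_iff_forall] at hb ⊢
    intro u
    obtain ⟨w, hw⟩ := hb u
    exact hZ u b w hw
  -- the pieces
  have hpiece : ∀ b, PYu LB ⟨D b, hD b⟩ h' := by
    intro b
    obtain ⟨z, hz⟩ := hl (Fin 9 ⊕ Fin 9) inferInstance h18 (Sum.elim b.1.2 h')
    have e1 := U3 hz b.1.1 Sum.inl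
    obtain ⟨k, hk1, hk2⟩ := e1.1 b.2
    refine (U3 hz ⟨D b, hD b⟩ Sum.inr).2 ?_
    have hex : ∀ u, ∃ w, u ∈ D b → h u = Sum.inr (b, w) := by
      intro u
      by_cases hu : u ∈ D b
      · obtain ⟨w, hw⟩ := hu
        exact ⟨w, fun _ => hw⟩
      · exact ⟨0, fun h => absurd h hu⟩
    choose φ hφ using hex
    refine ⟨fun u => if u ∈ D b then k (φ u) else z (Sum.inr u), fun u hu => if_neg hu,
      fun u hu v huv => ?_⟩
    have hu' : u ∈ D b := hu
    show C.E (if u ∈ D b then k (φ u) else z (Sum.inr u))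
      (if v ∈ D b then k (φ v) else z (Sum.inr v))
    rw [if_pos hu']
    have h3 := h2 u (hZ u b (φ u) (hφ u hu)) v huv
    rw [hφ u hu, EF_inr] at h3
    obtain ⟨h4, w, h5, h6⟩ := h3
    have h7 := hk2 (φ u) h4 w h5
    by_cases hw : w ∈ b.1.1.1
    · rw [pb_in b hw] at h6
      have hv : v ∈ D b := ⟨w, h6⟩
      rw [if_pos hv]
      have h8 := hφ v hv
      rw [h6] at h8
      have h9 : w = φ v := (Prod.mk.inj (Sum.inr_injective h8)).2
      rw [← h9]
      exact h7
    · rw [pb_out b hw] at h6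
      have hv : v ∉ D b := by
        rintro ⟨w', hw'⟩
        rw [h6] at hw'
        exact absurd hw' (by simp)
      rw [if_neg hv]
      rw [hk1 w hw] at h7
      have h8 : z (Sum.inl w) = z (Sum.inr v) := (hz.eq _ _).1 (hh v _ h6).symm
      rw [← h8]
      exact h7
  obtain ⟨z, hz⟩ := hl (Fin 9 ⊕ Fin 9) inferInstance h18 (Sum.elim g h')
  refine (U3 hz Z Sum.inl).2 ?_
  have hw : ∀ b, ∃ k : Fin 9 → G, (∀ u, u ∉ D b → k u = z (Sum.inr u)) ∧
      ∀ u ∈ D b, ∀ v, W u v → C.E (k u) (k v) := fun b => (U3 hz ⟨D b, hD b⟩ Sum.inr).1 (hpiece b)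
  choose k hk1 hk2 using hw
  let k' : Fin 9 → G := fun u => Sum.elim (fun _ => z (Sum.inr u)) (fun q => k q.1 u) (h u)
  have hkl : ∀ u a, h u = Sum.inl a → k' u = z (Sum.inr u) := by
    intro u a hu
    show Sum.elim _ _ (h u) = _
    rw [hu]
    rfl
  have hkr : ∀ u b w, h u = Sum.inr (b, w) → k' u = k b u := by
    intro u b w hu
    show Sum.elim _ _ (h u) = _
    rw [hu]
    rfl
  have key : ∀ u v b w, h u = Sum.inr (b, w) → W u v → EF (h u) (h v) → C.E (k' u) (k' v) := by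
    intro u v b w hu huv hE
    rw [hkr u b w hu]
    have h3 := hk2 b u ⟨w, hu⟩ v huv
    rw [hu, EF_inr] at hE
    obtain ⟨h4, w', h5, h6⟩ := hE
    by_cases hw : w' ∈ b.1.1.1
    · rw [pb_in b hw] at h6
      rw [hkr v b w' h6]
      exact h3
    · rw [pb_out b hw] at h6
      rw [hkl v _ h6]
      have hv : v ∉ D b := by
        rintro ⟨w', hw'⟩
        rw [h6] at hw'
        exact absurd hw' (by simp)
      rw [hk1 b v hv] at h3
      exact h3
  have hsym : ∀ a b : Y, AYu LB a b → AYu LB b a := by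
    intro a b hab
    obtain ⟨z, hz⟩ := hl (Fin 2) inferInstance (by simp) ![a, b]
    exact (U1 hz 1 0).2 (C.symm _ _ ((U1 hz 0 1).1 hab))
  refine ⟨k', fun u hu => ?_, fun u hu v huv => ?_⟩
  · rw [hkl u _ (h1 u hu)]
    exact (hz.eq (Sum.inr u) (Sum.inl u)).1 (hh u _ (h1 u hu))
  · have hE := h2 u hu v huv
    rcases hu' : h u with a | ⟨b, w⟩
    · rcases hv' : h v with a' | ⟨b', w'⟩
      · rw [hkl u a hu', hkl v a' hv']
        refine (U1 hz (Sum.inr u) (Sum.inr v)).1 ?_
        show AYu LB (h' u) (h' v)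
        rw [hh u a hu', hh v a' hv']
        rw [hu', hv'] at hE
        exact hE
      · exact C.symm _ _ (key v u b' w' hv' (W_symm _ _ huv) (EF_symm hsym _ _ hE))
    · exact key u v b w hu' huv hE

end

end Pool.Agent.H17.UG
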