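import Mathlib
import Pool.Agent.H17.UG.FB

set_option autoImplicit false

/-!
# Finite boundedness of the generic coloured graph, second part
-/

namespace Pool.Agent.H17.UG

open Set
open FirstOrder FirstOrder.Language Pool.Agent.H74.Stub
open Pool.Agent.H17.DG (Dig digStr ArcRel IsHomo pp_arc FinRel IsReduct FinitelyBounded IsoT
  homog_tuple homog_of_tuple IsAut NoAlgebraicity LocE fb_of_local exists_bound two_eq)

section

variable {LB : FirstOrder.Language.{0, 0}} {Y : Type} [sY : (LU LB).Structure Y]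
  {K G : Type} [LB.Structure K] {C : CU K G}

theorem AYu_symm (hl : @LocE (LU LB) 18 Y G sY (strU LB C)) (a b : Y) (hab : AYu LB a b) :
    AYu LB b a := by
  obtain ⟨z, hz⟩ := hl (Fin 2) inferInstance (by simp) ![a, b]
  exact (U1 hz 1 0).2 (C.symm _ _ ((U1 hz 0 1).1 hab))

theorem rol_inl (hl : @LocE (LU LB) 18 Y G sY (strU LB C)) {I : Type} {y : I → Y} {z : I → G}
    (hz : @IsoT (LU LB) Y G sY (strU LB C) I y z) {i : Fin 3} {j : I}
    (h : Rol EF i (Sum.inl (y j) : Y ⊕ (Bx LB Y × Fin 9))) : Rol C.E i (z j) := by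
  rw [rol_iff (EF_symm (AYu_symm hl))] at h
  have h1 := (pz_fresh ⟨_, compl_ne_univ i⟩ (fun _ => y j) hl).1 h
  rw [rol_iff C.symm]
  exact (U3 hz ⟨_, compl_ne_univ i⟩ (fun _ => j)).1 h1

/-- The roles of the points of a copy. -/
theorem rol_fresh (hl : @LocE (LU LB) 18 Y G sY (strU LB C)) (b : Bx LB Y) {z k : Fin 9 → G}
    (hz : @IsoT (LU LB) Y G sY (strU LB C) (Fin 9) b.1.2 z)
    (hk1 : ∀ u, u ∉ b.1.1.1 → k u = z u) (hk2 : ∀ u ∈ b.1.1.1, ∀ v, W u v → C.E (k u) (k v))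
    {i : Fin 3} {w : Fin 9} (h : Rol EF i (Sum.inr (b, w) : Y ⊕ (Bx LB Y × Fin 9))) :
    Rol C.E i (k w) := by
  classical
  let _ : (LU LB).Structure G := strU LB C
  obtain ⟨h, h1, h2⟩ := h
  have hsym := EF_symm (LB := LB) (AYu_symm hl)
  let D : Set (Fin 9) := {u | ∃ w', h u = Sum.inr (b, w')}
  have hDi : rt i ∈ D := ⟨w, h2⟩
  -- neighbours
  have hnb : ∀ u v w', W u v → h u = Sum.inr (b, w') → w' ∈ b.1.1.1 ∧
      ∃ v', W w' v' ∧ h v = pb b v' := by
    intro u v w' huv hu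
    have h3 := h1 u v huv
    rw [hu, EF_inr] at h3
    exact h3
  have hex : ∀ u, ∃ w', u ∈ D → h u = Sum.inr (b, w') := by
    intro u
    by_cases hu : u ∈ D
    · obtain ⟨w', hw⟩ := hu
      exact ⟨w', fun _ => hw⟩
    · exact ⟨0, fun h => absurd h hu⟩
  choose φ hφ using hex
  let B : Set (Fin 9) := {v | v ∉ D ∧ ∃ u ∈ D, W u v}
  have hB : ∀ v, ∃ v', v ∈ B → v' ∉ b.1.1.1 ∧ h v = Sum.inl (b.1.2 v') := by
    intro v
    by_cases hv : v ∈ B
    · obtain ⟨hv1, u, hu, huv⟩ := hv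
      obtain ⟨h3, v', h4, h5⟩ := hnb u v _ huv (hφ u hu)
      by_cases hv' : v' ∈ b.1.1.1
      · rw [pb_in b hv'] at h5
        exact absurd ⟨v', h5⟩ hv1
      · exact ⟨v', fun _ => ⟨hv', by rw [h5, pb_out b hv']⟩⟩
    · exact ⟨0, fun h => absurd h hv⟩
  choose ψ hψ using hB
  let Z1 : Set (Fin 9) := {v | v ∉ D ∧ v ∉ B}
  have hZ1 : Z1 ≠ univ := by
    intro h3
    rw [eq_univ_iff_forall] at h3
    exact (h3 (rt i)).1 hDi
  have hP : PZ EF Z1 (fun v => (Sum.inl (b.1.2 (ψ v)) : Y ⊕ (Bx LB Y × Fin 9))) := by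
    refine ⟨fun v => if v ∈ Z1 then h v else Sum.inl (b.1.2 (ψ v)), fun u hu => if_neg hu,
      fun u hu v huv => ?_⟩
    show EF (if u ∈ Z1 then h u else Sum.inl (b.1.2 (ψ u)))
      (if v ∈ Z1 then h v else Sum.inl (b.1.2 (ψ v)))
    rw [if_pos hu]
    have hvD : v ∉ D := by
      intro hv
      exact hu.2 ⟨hu.1, v, hv, W_symm _ _ huv⟩
    by_cases hv : v ∈ Z1
    · rw [if_pos hv]
      exact h1 u v huv
    · have hvB : v ∈ B := by
        by_contra h3
        exact hv ⟨hvD, h3⟩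
      rw [if_neg hv, ← (hψ v hvB).2]
      exact h1 u v huv
  have hP' := (pz_fresh ⟨Z1, hZ1⟩ (fun v => b.1.2 (ψ v)) hl).1 hP
  obtain ⟨k1, hk3, hk4⟩ := (U3 hz ⟨Z1, hZ1⟩ ψ).1 hP'
  have hk5 : ∀ v, v ∈ B → k1 v = z (ψ v) := by
    intro v hv
    exact hk3 v (fun h3 => h3.2 hv)
  let H : Fin 9 → G := fun u => if u ∈ D then k (φ u) else k1 u
  have hHD : ∀ u, u ∈ D → H u = k (φ u) := fun u hu => if_pos hu
  have hHN : ∀ u, u ∉ D → H u = k1 u := fun u hu => if_neg hu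
  have key : ∀ u v, u ∈ D → W u v → C.E (H u) (H v) := by
    intro u v hu huv
    rw [hHD u hu]
    obtain ⟨h3, v', h4, h5⟩ := hnb u v _ huv (hφ u hu)
    have h6 := hk2 (φ u) h3 v' h4
    by_cases hv' : v' ∈ b.1.1.1
    · rw [pb_in b hv'] at h5
      have hv : v ∈ D := ⟨v', h5⟩
      rw [hHD v hv]
      have h7 := hφ v hv
      rw [h5] at h7
      have h8 : v' = φ v := (Prod.mk.inj (Sum.inr_injective h7)).2
      rw [← h8]
      exact h6
    · rw [pb_out b hv'] at h5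
      have hv : v ∉ D := by
        rintro ⟨w', hw'⟩
        rw [h5] at hw'
        exact absurd hw' (by simp)
      have hvB : v ∈ B := ⟨hv, u, hu, huv⟩
      rw [hHN v hv, hk5 v hvB]
      rw [hk1 v' hv'] at h6
      have h7 := (hψ v hvB).2
      rw [h5] at h7
      have h8 : b.1.2 v' = b.1.2 (ψ v) := Sum.inl_injective h7
      rw [← (hz.eq _ _).1 h8]
      exact h6
  refine ⟨H, fun u v huv => ?_, ?_⟩
  · by_cases hu : u ∈ D
    · exact key u v hu huv
    by_cases hv : v ∈ D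
    · exact C.symm _ _ (key v u hv (W_symm _ _ huv))
    rw [hHN u hu, hHN v hv]
    by_cases hu1 : u ∈ Z1
    · exact hk4 u hu1 v huv
    by_cases hv1 : v ∈ Z1
    · exact C.symm _ _ (hk4 v hv1 u (W_symm _ _ huv))
    have hu2 : u ∈ B := by
      by_contra h3
      exact hu1 ⟨hu, h3⟩
    have hv2 : v ∈ B := by
      by_contra h3
      exact hv1 ⟨hv, h3⟩
    rw [hk5 u hu2, hk5 v hv2]
    have h3 := h1 u v huv
    rw [(hψ u hu2).2, (hψ v hv2).2] at h3
    exact (U1 hz (ψ u) (ψ v)).1 h3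
  · rw [hHD _ hDi]
    have h3 := hφ _ hDi
    rw [h2] at h3
    have h4 : w = φ (rt i) := (Prod.mk.inj (Sum.inr_injective h3)).2
    rw [← h4]

theorem rol_pb (hl : @LocE (LU LB) 18 Y G sY (strU LB C)) (b : Bx LB Y) {z k : Fin 9 → G}
    (hz : @IsoT (LU LB) Y G sY (strU LB C) (Fin 9) b.1.2 z)
    (hk1 : ∀ u, u ∉ b.1.1.1 → k u = z u) (hk2 : ∀ u ∈ b.1.1.1, ∀ v, W u v → C.E (k u) (k v))
    {i : Fin 3} {w : Fin 9} (h : Rol EF i (pb b w)) :
    Rol C.E i (k w) := by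
  by_cases hw : w ∈ b.1.1.1
  · rw [pb_in b hw] at h
    exact rol_fresh hl b hz hk1 hk2 h
  · rw [pb_out b hw] at h
    rw [hk1 w hw]
    exact rol_inl hl hz h

theorem finitelyBoundedU {R : K → K → Prop} (hLB : FinRel LB) (hB : LB.IsUltrahomogeneous K)
    (hFB : FinitelyBounded LB K) (hC : IsGenU R C)
    (hR : @IsReduct Dig LB K (digStr R) _) : @FinitelyBounded (LU LB) G (strU LB C) := by
  classical
  obtain ⟨ι, hι, N, hN, hNs, hfb⟩ := hFB
  have hrel := hLB.1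
  obtain ⟨m, -, hm3, hm18, hm4, hm5⟩ := exists_bound (k := 0) hLB N 18
  let _ : (LU LB).Structure G := strU LB C
  refine fb_of_local (finRel_LU hLB) m ?_
  intro Y hY sY hloc
  have hl : LocE (LU LB) 18 Y G := fun I hI hc y => hloc I hI (hc.trans hm18) y
  obtain ⟨c, hc1, hc2⟩ := exists_colU hLB N hfb (by simpa using hm3)
    (fun n R => by simpa using hm4 n R) (fun i => by simpa using hm5 i) hloc
  -- transport of colours
  have tr : ∀ {I : Type} [Finite I] (y : I → Y) (z : I → G), IsoT (LU LB) y z →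
      ∃ g : LB.Equiv K K, ∀ i, g (C.c (z i)) = c (y i) := by
    intro I _ y z hz
    exact homog_tuple hB (fun i => C.c (z i)) (fun i => c (y i))
      ⟨fun i j => (U2 hz i j).symm.trans (hc1 _ _), fun R t => (U4 hz R t).symm.trans (hc2 _ R _)⟩
  have conm : ∀ (g : LB.Equiv K K) {i j : Fin 3} {a b : K}, Con R i j a b →
      Con R i j (g a) (g b) := fun g {i j a b} h => h.map (β := g) (R_aut hR g)
  -- realisations of the copies
  have hreal : ∀ b : Bx LB Y, ∃ z k : Fin 9 → G, IsoT (LU LB) b.1.2 z ∧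
      (∀ u, u ∉ b.1.1.1 → k u = z u) ∧ ∀ u ∈ b.1.1.1, ∀ v, W u v → C.E (k u) (k v) := by
    intro b
    obtain ⟨z, hz⟩ := hl (Fin 9) inferInstance (by simp) b.1.2
    obtain ⟨k, hk1, hk2⟩ := (U3 hz b.1.1 id).1 b.2
    exact ⟨z, k, hz, hk1, hk2⟩
  choose z k hz hk1 hk2 using hreal
  have hbeta : ∀ b : Bx LB Y, ∃ g : LB.Equiv K K, ∀ u, g (C.c (z b u)) = c (b.1.2 u) :=
    fun b => tr _ _ (hz b)
  choose β hβ using hbeta
  have hsym := EF_symm (LB := LB) (AYu_symm hl)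
  let D : CU K (Y ⊕ (Bx LB Y × Fin 9)) :=
    { E := EF
      symm := hsym
      c := Sum.elim c (fun q => β q.1 (C.c (k q.1 q.2))) }
  have hDpb : ∀ b v, D.c (pb b v) = β b (C.c (k b v)) := by
    intro b v
    by_cases hv : v ∈ b.1.1.1
    · rw [pb_in b hv]
      rfl
    · rw [pb_out b hv, hk1 b v hv, hβ b v]
      rfl
  have hgood : Gd R D.E D.c := by
    have key : ∀ (b : Bx LB Y) (u : Fin 9) (q : Y ⊕ (Bx LB Y × Fin 9)) (i j : Fin 3),
        EF (Sum.inr (b, u)) q → Rol EF i (Sum.inr (b, u) : Y ⊕ (Bx LB Y × Fin 9)) → Rol EF j q →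
        Con R i j (D.c (Sum.inr (b, u))) (D.c q) ∧ Con R j i (D.c q) (D.c (Sum.inr (b, u))) := by
      intro b u q i j h1 h2 h3
      rw [EF_inr] at h1
      obtain ⟨hu, v, huv, rfl⟩ := h1
      have h4 := rol_fresh hl b (hz b) (hk1 b) (hk2 b) h2
      have h5 := rol_pb hl b (hz b) (hk1 b) (hk2 b) h3
      have h6 := hk2 b u hu v huv
      rw [hDpb b v]
      exact ⟨conm (β b) (hC.good _ _ i j h6 h4 h5),
        conm (β b) (hC.good _ _ j i (C.symm _ _ h6) h5 h4)⟩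
    rintro (a | ⟨b, u⟩) (a' | ⟨b', u'⟩) i j h1 h2 h3
    · obtain ⟨z, hz⟩ := hl (Fin 2) inferInstance (by simp) ![a, a']
      obtain ⟨g, hg⟩ := tr _ _ hz
      have h4 : Rol C.E i (z 0) := rol_inl hl hz h2
      have h5 : Rol C.E j (z 1) := rol_inl hl hz h3
      have h6 : C.E (z 0) (z 1) := (U1 hz 0 1).1 h1
      have h7 := conm g (hC.good _ _ i j h6 h4 h5)
      rw [hg 0, hg 1] at h7
      exact h7
    · exact (key b' u' _ j i (hsym _ _ h1) h3 h2).2
    · exact (key b u _ i j h1 h2 h3).1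
    · exact (key b u _ i j h1 h2 h3).1
  obtain ⟨e, he⟩ := hC.embed' D hgood
  refine ⟨{ toFun := fun a => e (Sum.inl a)
            inj' := ?_
            map_fun' := fun f => isEmptyElim f
            map_rel' := ?_ }⟩
  · intro a b hab
    exact Sum.inl_injective ((he.eq _ _).2 hab)
  · intro n S x
    cases S with
    | arc => exact (he.arc (Sum.inl (x 0)) (Sum.inl (x 1))).symm.trans (AYu_iff x)
    | same =>
      have h1 : C.c (e (Sum.inl (x 0))) = c (x 0) := he.col (Sum.inl (x 0))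
      have h2 : C.c (e (Sum.inl (x 1))) = c (x 1) := he.col (Sum.inl (x 1))
      have h3 : C.c (e (Sum.inl (x 0))) = C.c (e (Sum.inl (x 1))) ↔ c (x 0) = c (x 1) := by
        rw [h1, h2]
      exact h3.trans ((hc1 _ _).symm.trans (SYu_iff x))
    | pz Z =>
      have h1 := he.pz Z.1 Z.2 (fun u => Sum.inl (x u))
      exact h1.symm.trans (pz_fresh Z x hl)
    | pull S =>
      have h1 := hc2 n S x
      have h2 : (fun i => C.c (e (Sum.inl (x i)))) = fun i => c (x i) :=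
        funext fun i => he.col (Sum.inl (x i))
      show Structure.RelMap S (fun i => C.c (e (Sum.inl (x i)))) ↔ _
      rw [h2]
      exact h1.symm

end

end Pool.Agent.H17.UG
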