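import Mathlib
import Pool.Agent.H17.UG.BF
import Pool.Agent.H17.DG.Glue2

set_option autoImplicit false

/-!
# Gluing copies of a finite graph along a locally 2-colourable digraph
-/

namespace Pool.Agent.H17.UG

open Set
open Pool.Agent.H17.DG (al be pat pat_surj al_ne_be al_be_surj Cst cst_pat pt emb emb_pat emb_cases
  emb_inj Gam shared ne_of_ar)

theorem al_be_inj (c c' : Fin 6) (h : al c = al c') (h' : be c = be c') : c = c' := by
  revert c c'
  decide

section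

variable {K G V : Type} {R : K → K → Prop} {C : CU K G} {n l : ℕ}
  {ρ : (Fin 2 × Fin n) ⊕ Fin l → Fin 6 → G} {π : Fin n → Fin 3 → G} {Ar : V → V → Prop}

/-- edges between rows -/
def RU (C : CU K G) (r r' : Fin 6 → G) : Prop := ∀ c, C.E (r c) (r' c)

/-- edges of the glued structure -/
def EG (C : CU K G) (ρ : (Fin 2 × Fin n) ⊕ Fin l → Fin 6 → G) (π : Fin n → Fin 3 → G)
    (Ar : V → V → Prop) (q q' : Gam V G) : Prop :=
  ∃ (e : Fin 2 → V) (y y' : (Fin 2 × Fin n) ⊕ Fin l), Ar (e 0) (e 1) ∧ q = emb π e (ρ y) ∧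
    q' = emb π e (ρ y') ∧ RU C (ρ y) (ρ y')

theorem EG_symm (q q' : Gam V G) (h : EG C ρ π Ar q q') : EG C ρ π Ar q' q := by
  obtain ⟨e, y, y', h1, h2, h3, h4⟩ := h
  exact ⟨e, y', y, h1, h3, h2, fun c => C.symm _ _ (h4 c)⟩

/-- all sets of at most `M` arcs are 2-colourable -/
def Loc2 (M : ℕ) (Ar : V → V → Prop) : Prop :=
  ∀ S : Finset (V × V), S.card ≤ M → (∀ e ∈ S, Ar e.1 e.2) →
    ∃ χ : V → Bool, ∀ e ∈ S, χ e.1 ≠ χ e.2

/-- A point with a role in the glued structure has this role in every column. -/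
theorem fold_rol (hO : ∀ v w, Ar v w → ¬ Ar w v) (hloc : Loc2 82 Ar) {e : Fin 2 → V}
    (he : Ar (e 0) (e 1)) {y : (Fin 2 × Fin n) ⊕ Fin l} {i : Fin 3}
    (h : Rol (EG C ρ π Ar) i (emb π e (ρ y))) (c : Fin 6) : Rol C.E i (ρ y c) := by
  classical
  obtain ⟨h, h1, h2⟩ := h
  have hch : ∀ p : Fin 9 × Fin 9, ∃ (f : Fin 2 → V) (z z' : (Fin 2 × Fin n) ⊕ Fin l),
      Ar (f 0) (f 1) ∧ (W p.1 p.2 → h p.1 = emb π f (ρ z) ∧ h p.2 = emb π f (ρ z') ∧
        RU C (ρ z) (ρ z')) := by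
    intro p
    by_cases hp : W p.1 p.2
    · obtain ⟨f, z, z', h3, h4⟩ := h1 _ _ hp
      exact ⟨f, z, z', h3, fun _ => h4⟩
    · exact ⟨e, y, y, he, fun h => absurd h hp⟩
  choose f z z' hf hz using hch
  let S : Finset (V × V) := insert (e 0, e 1)
    (Finset.univ.image (fun p : Fin 9 × Fin 9 => (f p 0, f p 1)))
  have hcard : S.card ≤ 82 := by
    refine (Finset.card_insert_le _ _).trans ?_
    have h3 : (Finset.univ.image (fun p : Fin 9 × Fin 9 => (f p 0, f p 1))).card ≤ 81 :=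
      Finset.card_image_le.trans (by simp)
    omega
  have hSA : ∀ a ∈ S, Ar a.1 a.2 := by
    intro a ha
    rcases Finset.mem_insert.1 ha with rfl | ha
    · exact he
    · obtain ⟨p, -, rfl⟩ := Finset.mem_image.1 ha
      exact hf p
  obtain ⟨χ, hχ⟩ := hloc S hcard hSA
  have heS : (e 0, e 1) ∈ S := Finset.mem_insert_self _ _
  have hfS : ∀ p, (f p 0, f p 1) ∈ S := fun p =>
    Finset.mem_insert_of_mem (Finset.mem_image_of_mem _ (Finset.mem_univ p))
  let χ3 : V → Fin 3 := fun v => if χ v = χ (e 0) then al c else be c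
  have hχ3 : ∀ a ∈ S, χ3 a.1 ≠ χ3 a.2 := by
    intro a ha
    have h3 := hχ a ha
    show (if χ a.1 = χ (e 0) then al c else be c) ≠ (if χ a.2 = χ (e 0) then al c else be c)
    have h4 : χ a.1 = χ (e 0) ∨ χ a.2 = χ (e 0) := by
      revert h3
      generalize χ a.1 = x
      generalize χ a.2 = y
      generalize χ (e 0) = z
      revert x y z
      decide
    rcases h4 with h4 | h4
    · rw [if_pos h4, if_neg (fun h5 => h3 (h4.trans h5.symm))]
      exact al_ne_be c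
    · rw [if_pos h4, if_neg (fun h5 => h3 (h5.trans h4.symm))]
      exact (al_ne_be c).symm
  have hcol : ∀ g : Fin 2 → V, ∃ d, (g 0, g 1) ∈ S → ∀ a, pat a d = χ3 (g a) := by
    intro g
    by_cases hg : (g 0, g 1) ∈ S
    · obtain ⟨d, h3, h4⟩ := al_be_surj _ _ (hχ3 _ hg)
      refine ⟨d, fun _ a => ?_⟩
      match a with
      | 0 => exact h3
      | 1 => exact h4
    · exact ⟨0, fun h => absurd h hg⟩
  choose col hcol using hcol
  have hcole : col e = c := by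
    have h3 : al (col e) = χ3 (e 0) := hcol e heS 0
    have h4 : be (col e) = χ3 (e 1) := hcol e heS 1
    have h5 : χ3 (e 0) = al c := if_pos rfl
    have h6 : χ3 (e 1) = be c := if_neg (fun h => hχ _ heS h.symm)
    exact al_be_inj _ _ (h3.trans h5) (h4.trans h6)
  have cons : ∀ (g g' : Fin 2 → V) (x x' : (Fin 2 × Fin n) ⊕ Fin l), (g 0, g 1) ∈ S →
      (g' 0, g' 1) ∈ S → emb π g (ρ x) = emb π g' (ρ x') → ρ x (col g) = ρ x' (col g') := by
    intro g g' x x' hg hg' hx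
    have hgA : Ar (g 0) (g 1) := hSA _ hg
    have hgA' : Ar (g' 0) (g' 1) := hSA _ hg'
    by_cases hgg : g = g'
    · subst hgg
      rw [emb_inj π (ne_of_ar hO hgA) hx]
    · obtain ⟨idx, a, b, h3, h4, h5⟩ := shared π hO hgA hgA' hgg (fun _ : Fin 1 => ρ x)
        (fun _ => ρ x') (fun _ => hx)
      have h3' := h3 0
      have h4' := h4 0
      rw [h3', h4']
      show π (idx 0) (pat a (col g)) = π (idx 0) (pat b (col g'))
      rw [hcol g hg a, hcol g' hg' b]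
      rcases h5 with h5 | h5
      · rw [h5]
      · exact h5 0 _ _
  choose nb hnb using W_nbr
  refine ⟨fun u => ρ (z (u, nb u)) (col (f (u, nb u))), fun u v huv => ?_, ?_⟩
  · have h3 := hz (u, v) huv
    have h4 := hz (u, nb u) (hnb u)
    have h5 := hz (v, nb v) (hnb v)
    have e1 : ρ (z (u, nb u)) (col (f (u, nb u))) = ρ (z (u, v)) (col (f (u, v))) :=
      cons _ _ _ _ (hfS _) (hfS _) (h4.1.symm.trans h3.1)
    have e2 : ρ (z (v, nb v)) (col (f (v, nb v))) = ρ (z' (u, v)) (col (f (u, v))) :=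
      cons _ _ _ _ (hfS _) (hfS _) (h5.1.symm.trans h3.2.1)
    show C.E (ρ (z (u, nb u)) (col (f (u, nb u)))) (ρ (z (v, nb v)) (col (f (v, nb v))))
    rw [e1, e2]
    exact h3.2.2 _
  · have h4 := hz (rt i, nb (rt i)) (hnb _)
    have e1 := cons _ _ _ _ (hfS _) heS (h4.1.symm.trans h2)
    rw [hcole] at e1
    exact e1

/-- Gluing. -/
theorem IsGenU.glue (hC : IsGenU R C) [Nonempty K] [Countable G] [Countable V]
    (hρ : ∀ a i, ρ (Sum.inl (a, i)) = fun c => π i (pat a c))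
    (hO : ∀ v w, Ar v w → ¬ Ar w v) (hloc : Loc2 82 Ar)
    (t : V → Fin n → K) (s : (Fin 2 → V) → (Fin 2 × Fin n) ⊕ Fin l → K)
    (hs1 : ∀ e : Fin 2 → V, Ar (e 0) (e 1) → ∀ a τ, s e (Sum.inl (a, τ)) = t (e a) τ)
    (hs2 : ∀ e : Fin 2 → V, Ar (e 0) (e 1) → ∀ y y', ρ y = ρ y' → s e y = s e y')
    (hs3 : ∀ e : Fin 2 → V, Ar (e 0) (e 1) → ∀ y y' i j, RU C (ρ y) (ρ y') →
      (∀ c, Rol C.E i (ρ y c)) → (∀ c, Rol C.E j (ρ y' c)) → Con R i j (s e y) (s e y'))
    (ht : ∀ e f : Fin 2 → V, Ar (e 0) (e 1) → Ar (f 0) (f 1) → ∀ τ, Cst (π τ) →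
      t (e 0) τ = t (f 0) τ) :
    ∃ Φ : V → Fin n → G, ∀ e : Fin 2 → V, Ar (e 0) (e 1) →
      ∃ H : (Fin 2 × Fin n) ⊕ Fin l → G, (∀ a i, H (Sum.inl (a, i)) = Φ (e a) i) ∧
        (∀ y y', ρ y = ρ y' → H y = H y') ∧ (∀ y y', RU C (ρ y) (ρ y') → C.E (H y) (H y')) := by
  classical
  -- consistency of the colourings
  have cons : ∀ e f : Fin 2 → V, Ar (e 0) (e 1) → Ar (f 0) (f 1) → ∀ y y',
      emb π e (ρ y) = emb π f (ρ y') → s e y = s f y' := by
    intro e f he hf y y' h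
    by_cases hef : e = f
    · subst hef
      exact hs2 e he y y' (emb_inj π (ne_of_ar hO he) h)
    · obtain ⟨idx, a, b, h3, h4, h5⟩ := shared π hO he hf hef (fun _ : Fin 1 => ρ y)
        (fun _ => ρ y') (fun _ => h)
      have key : ∀ (e : Fin 2 → V), Ar (e 0) (e 1) → ∀ y a, (ρ y =
          fun c => π (idx 0) (pat a c)) → s e y = t (e a) (idx 0) := by
        intro e he y a h
        rw [← hs1 e he a (idx 0)]
        exact hs2 e he _ _ (by rw [hρ, h])
      have h3' : ρ y = _ := h3 0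
      have h4' : ρ y' = _ := h4 0
      rcases h5 with h5 | h5
      · rw [key e he y a h3', key f hf y' b h4', h5]
      · rw [key e he y 0 (by rw [h3']; exact cst_pat (h5 0) _ _),
          key f hf y' 0 (by rw [h4']; exact cst_pat (h5 0) _ _)]
        exact ht e f he hf (idx 0) (h5 0)
  let cl : Gam V G → K := fun q =>
    if h : ∃ (p : (Fin 2 → V) × ((Fin 2 × Fin n) ⊕ Fin l)),
      Ar (p.1 0) (p.1 1) ∧ q = emb π p.1 (ρ p.2)
    then s h.choose.1 h.choose.2 else Classical.arbitrary K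
  have hcl : ∀ e : Fin 2 → V, Ar (e 0) (e 1) → ∀ y, cl (emb π e (ρ y)) = s e y := by
    intro e he y
    have h : ∃ (p : (Fin 2 → V) × ((Fin 2 × Fin n) ⊕ Fin l)),
      Ar (p.1 0) (p.1 1) ∧ emb π e (ρ y) = emb π p.1 (ρ p.2) := ⟨(e, y), he, rfl⟩
    have h1 : cl (emb π e (ρ y)) = s h.choose.1 h.choose.2 := dif_pos h
    rw [h1]
    exact (cons _ _ he h.choose_spec.1 _ _ h.choose_spec.2).symm
  let Y : CU K (Gam V G) := ⟨EG C ρ π Ar, EG_symm, cl⟩
  have hY : Gd R Y.E Y.c := by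
    rintro q q' i j ⟨e, y, y', he, rfl, rfl, hyy⟩ h2 h3
    show Con R i j (cl (emb π e (ρ y))) (cl (emb π e (ρ y')))
    rw [hcl e he, hcl e he]
    exact hs3 e he y y' i j hyy (fold_rol hO hloc he h2) (fold_rol hO hloc he h3)
  obtain ⟨h, hh⟩ := hC.embed' Y hY
  refine ⟨fun v i => h (Sum.inl (pt v (π i))), fun e he => ⟨fun y => h (emb π e (ρ y)), ?_, ?_, ?_⟩⟩
  · intro a i
    show h (emb π e (ρ (Sum.inl (a, i)))) = _
    rw [hρ, emb_pat]
  · intro y y' hyy
    show h (emb π e (ρ y)) = h (emb π e (ρ y'))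
    rw [hyy]
  · intro y y' hyy
    exact (hh.arc _ _).1 ⟨e, y, y', he, rfl, rfl, hyy⟩

end

end Pool.Agent.H17.UG
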