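import Mathlib

set_option autoImplicit false

/-!
# Digraphs which are locally 2-colourable but not finitely colourable
-/

namespace Pool.Agent.H17.UG

/-- For every `M` there is a countable acyclic digraph all of whose finite colourings have a
monochromatic arc, while all sets of at most `M` arcs are 2-colourable. -/
theorem exists_local (M : ℕ) : ∃ (V : Type) (_ : Countable V) (Ar : V → V → Prop) (φ : V → ℕ),
    (∀ v w, Ar v w → φ v < φ w) ∧
    (∀ (F : Type) (_ : Finite F) (c : V → F), ∃ v w, Ar v w ∧ c v = c w) ∧
    ∀ S : Finset (V × V), S.card ≤ M → (∀ e ∈ S, Ar e.1 e.2) →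
      ∃ χ : V → Bool, ∀ e ∈ S, χ e.1 ≠ χ e.2 := by
  classical
  induction M with
  | zero =>
    refine ⟨ℕ, inferInstance, fun i j => i < j, id, fun _ _ h => h, ?_, ?_⟩
    · intro F hF c
      obtain ⟨i, j, hij, h⟩ := Finite.exists_ne_map_eq_of_infinite c
      rcases lt_or_gt_of_ne hij with h1 | h1
      · exact ⟨i, j, h1, h⟩
      · exact ⟨j, i, h1, h.symm⟩
    · intro S hS _
      refine ⟨fun _ => true, fun e he => ?_⟩
      rw [Nat.le_zero, Finset.card_eq_zero] at hS
      rw [hS] at he
      exact absurd he (Finset.notMem_empty e)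
  | succ M ih =>
    obtain ⟨V, hV, Ar, φ, h1, h2, h3⟩ := ih
    refine ⟨{p : V × V // Ar p.1 p.2}, inferInstance, fun p q => p.1.2 = q.1.1,
      fun p => φ p.1.1, ?_, ?_, ?_⟩
    · rintro ⟨⟨a, b⟩, hab⟩ ⟨⟨c, d⟩, hcd⟩ h
      have h4 : b = c := h
      have h5 := h1 _ _ hab
      show φ a < φ c
      rw [← h4]
      exact h5
    · intro F hF c
      obtain ⟨v, w, hvw, h4⟩ := h2 (Set F) inferInstance
        (fun v => {x | ∃ w, ∃ h : Ar v w, c ⟨(v, w), h⟩ = x})
      have h5 : c ⟨(v, w), hvw⟩ ∈ {x | ∃ w, ∃ h : Ar v w, c ⟨(v, w), h⟩ = x} := ⟨w, hvw, rfl⟩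
      rw [h4] at h5
      obtain ⟨u, hu, h6⟩ := h5
      exact ⟨⟨(v, w), hvw⟩, ⟨(w, u), hu⟩, rfl, h6.symm⟩
    · intro S hS hSA
      let hd : {p : V × V // Ar p.1 p.2} × {p : V × V // Ar p.1 p.2} → V × V :=
        fun e => (e.1.1.2, e.2.1.2)
      -- colourings from below
      have pull : ∀ T : Finset ({p : V × V // Ar p.1 p.2} × {p : V × V // Ar p.1 p.2}), T ⊆ S →
          (T.image hd).card ≤ M → ∃ χ : {p : V × V // Ar p.1 p.2} → Bool,
            ∀ e ∈ T, χ e.1 ≠ χ e.2 := by
        intro T hT hc
        obtain ⟨χ, hχ⟩ := h3 (T.image hd) hc (by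
          intro e he
          obtain ⟨f, hf, rfl⟩ := Finset.mem_image.1 he
          have h4 := hSA f (hT hf)
          show Ar f.1.1.2 f.2.1.2
          rw [h4]
          exact f.2.2)
        refine ⟨fun p => χ p.1.2, fun e he => ?_⟩
        exact hχ (hd e) (Finset.mem_image_of_mem hd he)
      by_cases hinj : Set.InjOn hd S
      swap
      · apply pull S (Finset.Subset.refl S)
        have h4 : (S.image hd).card < S.card := by
          refine lt_of_le_of_ne Finset.card_image_le ?_
          intro h5
          exact hinj (Finset.card_image_iff.1 h5)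
        omega
      rcases S.eq_empty_or_nonempty with rfl | hne
      · exact ⟨fun _ => true, fun e he => absurd he (Finset.notMem_empty e)⟩
      obtain ⟨e0, he0, hmax⟩ := S.exists_max_image (fun e => φ e.2.1.1) hne
      obtain ⟨χ, hχ⟩ := pull (S.erase e0) (Finset.erase_subset _ _) (by
        refine Finset.card_image_le.trans ?_
        rw [Finset.card_erase_of_mem he0]
        omega)
      refine ⟨fun v => if v = e0.2 then !χ e0.1 else χ v, fun e he => ?_⟩
      have hlt : ∀ e ∈ S, φ e.1.1.1 < φ e.2.1.1 := by
        intro e he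
        have h4 := hSA e he
        have h5 := h1 _ _ e.1.2
        rw [← h4]
        exact h5
      by_cases hee : e = e0
      · subst hee
        have h4 : e.1 ≠ e.2 := by
          intro h5
          have := hlt e he
          rw [h5] at this
          exact lt_irrefl _ this
        simp [h4]
      · have ha : e.1 ≠ e0.2 := by
          intro h5
          have h6 := hlt e he
          have h7 := hmax e he
          rw [h5] at h6
          omega
        have hb : e.2 ≠ e0.2 := by
          intro h5
          apply hee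
          apply hinj he he0
          have h6 := hSA e he
          have h7 := hSA e0 he0
          show (e.1.1.2, e.2.1.2) = (e0.1.1.2, e0.2.1.2)
          rw [h6, h7, h5]
        have h4 := hχ e (Finset.mem_erase.2 ⟨hee, he⟩)
        simp only [if_neg ha, if_neg hb]
        exact h4

end Pool.Agent.H17.UG
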