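import Mathlib
import Pool.Agent.H17.UG.Fold
import Pool.Agent.H17.UG.Loc
import Pool.Agent.H17.UG.PPC
import Pool.Agent.H17.DG.K3

set_option autoImplicit false

/-!
# If the generic coloured graph pp-constructs `K₃` then so does the template
-/

namespace Pool.Agent.H17.UG

open FirstOrder FirstOrder.Language Pool.Agent.H74.Stub Set
open Pool.Agent.H17.DG (Dig digStr ArcRel IsHomo pp_arc K3 exists_colouring pp_const
  al be pat pat_surj al_ne_be al_be_surj Cst cst_pat)

section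

variable {K G V U : Type} {R : K → K → Prop} {C : CU K G} {n l : ℕ}

/-- the arcs of the product -/
def PA (E : U → U → Prop) (Ar : V → V → Prop) (x y : U × V) : Prop :=
  E x.1 y.1 ∧ Ar x.2 y.2

theorem pa_loc (E : U → U → Prop) {Ar : V → V → Prop} {M : ℕ} (h : Loc2 M Ar) :
    Loc2 M (PA E Ar) := by
  classical
  intro S hS hSA
  obtain ⟨χ, hχ⟩ := h (S.image (fun e => (e.1.2, e.2.2))) (Finset.card_image_le.trans hS) (by
    intro e he
    obtain ⟨f, hf, rfl⟩ := Finset.mem_image.1 he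
    exact (hSA f hf).2)
  exact ⟨fun v => χ v.2, fun e he => hχ _ (Finset.mem_image_of_mem _ he)⟩

theorem pa_colour [Finite U] (E : U → U → Prop) {Ar : V → V → Prop}
    (hAr : ∀ (F : Type) (_ : Finite F) (c : V → F), ∃ v w, Ar v w ∧ c v = c w)
    (g : U × V → Fin 3) (h : ∀ x y, PA E Ar x y → g x ≠ g y) :
    ∃ g' : U → Fin 3, ∀ u v, E u v → g' u ≠ g' v := by
  obtain ⟨v, w, hvw, h1⟩ := hAr (U → Fin 3) inferInstance (fun v u => g (u, v))
  refine ⟨fun u => g (u, v), fun a b hab => ?_⟩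
  have h2 : g (b, v) = g (b, w) := congrFun h1 b
  show g (a, v) ≠ g (b, v)
  rw [h2]
  exact h _ _ ⟨hab, hvw⟩

/-- an edge of the pp-power of the template -/
def EdgU (R : K → K → Prop) (C : CU K G) (ρ : (Fin 2 × Fin n) ⊕ Fin l → Fin 6 → G)
    (t t' : Fin n → K) : Prop :=
  ∃ s : (Fin 2 × Fin n) ⊕ Fin l → K,
    (∀ τ, s (Sum.inl (0, τ)) = t τ) ∧ (∀ τ, s (Sum.inl (1, τ)) = t' τ) ∧
    (∀ y y', ρ y = ρ y' → s y = s y') ∧
    (∀ y y' i j, RU C (ρ y) (ρ y') → (∀ c, Rol C.E i (ρ y c)) → (∀ c, Rol C.E j (ρ y' c)) →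
      Con R i j (s y) (s y'))

theorem pp_con {I : Type} (i j : Fin 3) (a b : I) :
    @PPDefinable Dig K (digStr R) I {w : I → K | Con R i j (w a) (w b)} := by
  let _ := digStr R
  have h1 : PPDefinable Dig {w : I → K | (i = 0 ∧ j = 1) → w ∈ {w : I → K | R (w a) (w b)}} :=
    pp_const (pp_arc R _ _)
  have h2 : PPDefinable Dig {w : I → K | (i = 0 ∧ j = 2) → w ∈ {w : I → K | w a = w b}} :=
    pp_const (pp_eq _ _)
  have h3 : PPDefinable Dig {w : I → K | (i = 1 ∧ j = 2) → w ∈ {w : I → K | w a = w b}} :=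
    pp_const (pp_eq _ _)
  convert pp_inter h1 (pp_inter h2 h3) using 1
  ext w
  constructor
  · rintro ⟨h4, h5, h6⟩
    exact ⟨fun h => h4 h.1 h.2, fun h => h5 h.1 h.2, fun h => h6 h.1 h.2⟩
  · rintro ⟨h4, h5, h6⟩
    exact ⟨fun h h' => h4 ⟨h, h'⟩, fun h h' => h5 ⟨h, h'⟩, fun h h' => h6 ⟨h, h'⟩⟩

theorem pp_edgU (ρ : (Fin 2 × Fin n) ⊕ Fin l → Fin 6 → G) :
    @PPDefinable Dig K (digStr R) _ {w : Fin 2 × Fin n → K |
      EdgU R C ρ (fun τ => w (0, τ)) (fun τ => w (1, τ))} := by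
  let _ := digStr R
  let S := (Fin 2 × Fin n) ⊕ Fin l
  let I := (Fin 2 × Fin n) ⊕ S
  have h1 : PPDefinable Dig (⋂ τ : Fin n, {w : I → K |
      w (Sum.inr (Sum.inl (0, τ))) = w (Sum.inl (0, τ))}) :=
    pp_iInter fun τ => pp_eq _ _
  have h2 : PPDefinable Dig (⋂ τ : Fin n, {w : I → K |
      w (Sum.inr (Sum.inl (1, τ))) = w (Sum.inl (1, τ))}) :=
    pp_iInter fun τ => pp_eq _ _
  have h3 : PPDefinable Dig (⋂ σ : S × S, {w : I → K | (ρ σ.1 = ρ σ.2) →
      w ∈ {w : I → K | w (Sum.inr σ.1) = w (Sum.inr σ.2)}}) :=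
    pp_iInter fun σ => pp_const (pp_eq _ _)
  have h4 : PPDefinable Dig (⋂ x : (S × S) × (Fin 3 × Fin 3), {w : I → K |
      (RU C (ρ x.1.1) (ρ x.1.2) ∧ (∀ c, Rol C.E x.2.1 (ρ x.1.1 c)) ∧
        (∀ c, Rol C.E x.2.2 (ρ x.1.2 c))) →
      w ∈ {w : I → K | Con R x.2.1 x.2.2 (w (Sum.inr x.1.1)) (w (Sum.inr x.1.2))}}) :=
    pp_iInter fun x => pp_const (pp_con _ _ _ _)
  have h5 := pp_exists (pp_inter h1 (pp_inter h2 (pp_inter h3 h4)))
  convert h5 using 1
  ext w
  simp only [mem_ofPred_eq, mem_inter_iff, mem_iInter, Sum.elim_inr, Sum.elim_inl]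
  constructor
  · rintro ⟨s, h6, h7, h8, h9⟩
    exact ⟨s, h6, h7, fun σ h => h8 _ _ h, fun x h => h9 _ _ _ _ h.1 h.2.1 h.2.2⟩
  · rintro ⟨s, h6, h7, h8, h9⟩
    exact ⟨s, h6, h7, fun y y' h => h8 (y, y') h,
      fun y y' i j ha hb hc => h9 ((y, y'), (i, j)) ⟨ha, hb, hc⟩⟩

/-- The main step. -/
theorem k3_of_genericU [Nonempty K] [Countable G] [Countable K] (hC : IsGenU R C)
    (h : @PPConstructs Dig G (digStr C.E) Dig (Fin 3) K3) :
    @PPConstructs Dig K (digStr R) Dig (Fin 3) K3 := by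
  classical
  let _ : Dig.Structure (Fin 3) := K3
  let _ : Dig.Structure K := digStr R
  obtain ⟨n, P, hn, hpp, ⟨f⟩, ⟨g⟩⟩ := h
  obtain ⟨lv, fm, hfm⟩ := hpp 2 ArcRel.arc
  -- the six columns
  let W : Fin 6 → Fin 2 × Fin n → G := fun c q => g (pat q.1 c) q.2
  have hcol : ∀ c, ∃ y : Fin lv → G, ∀ a ∈ fm,
      @Atom.Holds Dig _ G (digStr C.E) (Sum.elim (W c) y) a := by
    intro c
    rw [← hfm]
    have h1 : K3.RelMap ArcRel.arc ![al c, be c] := al_ne_be c
    have h2 := g.map_rel' ArcRel.arc _ h1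
    show P.RelMap ArcRel.arc _
    convert h2 using 1
    funext i j
    match i with
    | 0 => rfl
    | 1 => rfl
  choose y hy using hcol
  let ρ : (Fin 2 × Fin n) ⊕ Fin lv → Fin 6 → G := fun v c => Sum.elim (W c) (y c) v
  let π : Fin n → Fin 3 → G := fun i a => g a i
  have hρ : ∀ a i, ρ (Sum.inl (a, i)) = fun c => π i (pat a c) := fun a i => rfl
  by_cases hcolour : ∃ g' : (Fin n → K) → Fin 3, ∀ t t', EdgU R C ρ t t' → g' t ≠ g' t'
  · obtain ⟨g', hg'⟩ := hcolour
    let S : Dig.Structure (Fin n → K) := digStr (fun w w' => EdgU R C ρ w w')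
    refine ⟨n, S, hn, ?_, ?_, ?_⟩
    · intro r Q
      cases Q with
      | arc => exact pp_edgU (C := C) ρ
    · refine ⟨{ toFun := fun w => g' w
                map_fun' := fun f => isEmptyElim f
                map_rel' := ?_ }⟩
      intro r Q w hw
      cases Q with
      | arc => exact hg' _ _ hw
    · refine ⟨{ toFun := fun a i => C.c (g a i)
                map_fun' := fun f => isEmptyElim f
                map_rel' := ?_ }⟩
      intro r Q x hx
      cases Q with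
      | arc =>
        have hne : x 0 ≠ x 1 := hx
        obtain ⟨c, h0, h1⟩ := al_be_surj _ _ hne
        refine ⟨fun σ => C.c (ρ σ c), ?_, ?_, ?_, ?_⟩
        · intro τ
          show C.c (g (al c) τ) = C.c (g (x 0) τ)
          rw [h0]
        · intro τ
          show C.c (g (be c) τ) = C.c (g (x 1) τ)
          rw [h1]
        · intro σ σ' hσ
          show C.c (ρ σ c) = C.c (ρ σ' c)
          rw [hσ]
        · intro z z' i j hzz hi hj
          exact hC.good _ _ i j (hzz c) (hi c) (hj c)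
  · exfalso
    -- the class of the constants
    let T := {τ : Fin n // Cst (π τ)}
    let κ : (Fin n → K) → (T → K) := fun t τ => t τ.1
    have hκ : ∀ t t', EdgU R C ρ t t' → κ t = κ t' := by
      rintro t t' ⟨s, h1, h2, h3, -⟩
      funext τ
      show t τ.1 = t' τ.1
      rw [← h1, ← h2]
      apply h3
      rw [hρ, hρ]
      exact cst_pat τ.2 _ _
    have h1 : ∃ κ0 : T → K, ¬ ∃ g' : (Fin n → K) → Fin 3, ∀ t t',
        (EdgU R C ρ t t' ∧ κ t = κ0) → g' t ≠ g' t' := by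
      by_contra hcon
      push Not at hcon
      choose gg hgg using hcon
      apply hcolour
      refine ⟨fun t => gg (κ t) t, fun t t' htt => ?_⟩
      show gg (κ t) t ≠ gg (κ t') t'
      rw [← hκ t t' htt]
      exact hgg (κ t) t t' ⟨htt, rfl⟩
    obtain ⟨κ0, h1⟩ := h1
    have h2 : ∃ F : Finset (Fin n → K), ¬ ∃ g' : (Fin n → K) → Fin 3, ∀ t ∈ F, ∀ t' ∈ F,
        (EdgU R C ρ t t' ∧ κ t = κ0) → g' t ≠ g' t' := by
      by_contra hcon
      push Not at hcon
      exact h1 (exists_colouring _ hcon)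
    obtain ⟨F, hF⟩ := h2
    let E : {t // t ∈ F} → {t // t ∈ F} → Prop := fun t t' => EdgU R C ρ t.1 t'.1 ∧ κ t.1 = κ0
    have hE : ¬ ∃ g' : {t // t ∈ F} → Fin 3, ∀ t t', E t t' → g' t ≠ g' t' := by
      rintro ⟨g', hg'⟩
      apply hF
      refine ⟨fun t => if h : t ∈ F then g' ⟨t, h⟩ else 0, fun t ht t' ht' htt => ?_⟩
      show (if h : t ∈ F then g' ⟨t, h⟩ else 0) ≠ (if h : t' ∈ F then g' ⟨t', h⟩ else 0)
      rw [dif_pos ht, dif_pos ht']
      exact hg' ⟨t, ht⟩ ⟨t', ht'⟩ htt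
    obtain ⟨V, hV, Ar, φ, hA1, hA2, hA3⟩ := exists_local 82
    have hs : ∀ e : Fin 2 → {t // t ∈ F} × V, ∃ s : (Fin 2 × Fin n) ⊕ Fin lv → K,
        PA E Ar (e 0) (e 1) →
        (∀ τ, s (Sum.inl (0, τ)) = (e 0).1.1 τ) ∧
        (∀ τ, s (Sum.inl (1, τ)) = (e 1).1.1 τ) ∧
        (∀ y y', ρ y = ρ y' → s y = s y') ∧
        (∀ y y' i j, RU C (ρ y) (ρ y') → (∀ c, Rol C.E i (ρ y c)) →
          (∀ c, Rol C.E j (ρ y' c)) → Con R i j (s y) (s y')) := by
      intro e
      by_cases he : PA E Ar (e 0) (e 1)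
      · obtain ⟨s, hs⟩ := he.1.1
        exact ⟨s, fun _ => hs⟩
      · exact ⟨fun _ => Classical.arbitrary K, fun h => absurd h he⟩
    choose s hs using hs
    obtain ⟨Φ, hΦ⟩ := hC.glue (ρ := ρ) (π := π) (Ar := PA E Ar) hρ
      (fun v w h1 h2 => by
        have h3 := hA1 _ _ h1.2
        have h4 := hA1 _ _ h2.2
        omega)
      (pa_loc E hA3)
      (fun v => v.1.1) s
      (by
        intro e he a τ
        match a with
        | 0 => exact (hs e he).1 τ
        | 1 => exact (hs e he).2.1 τ)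
      (fun e he => (hs e he).2.2.1) (fun e he => (hs e he).2.2.2)
      (by
        intro e e' he he' τ hτ
        have h3 : κ (e 0).1.1 = κ0 := he.1.2
        have h4 : κ (e' 0).1.1 = κ0 := he'.1.2
        exact congrFun (h3.trans h4.symm) ⟨τ, hτ⟩)
    apply hE
    apply pa_colour E hA2 (fun v => f (Φ v))
    intro v w hvw
    obtain ⟨H, hH1, hH2, hH3⟩ := hΦ ![v, w] hvw
    have h3 : P.RelMap ArcRel.arc ![Φ v, Φ w] := by
      have h4 : (fun q : Fin 2 × Fin n => (![Φ v, Φ w] : Fin 2 → Fin n → G) q.1 q.2) ∈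
          {w : Fin 2 × Fin n → G | P.RelMap ArcRel.arc fun i j => w (i, j)} := by
        rw [hfm]
        refine ⟨fun j => H (Sum.inr j), fun a ha => ?_⟩
        have e1 : Sum.elim (fun q : Fin 2 × Fin n => (![Φ v, Φ w] : Fin 2 → Fin n → G) q.1 q.2)
            (fun j => H (Sum.inr j)) = H := by
          funext q
          rcases q with ⟨a, i⟩ | j
          · have h5 := hH1 a i
            show (![Φ v, Φ w] : Fin 2 → Fin n → G) a i = _
            rw [h5]
            match a with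
            | 0 => rfl
            | 1 => rfl
          · rfl
        rw [e1]
        have h6 := fun c => hy c a ha
        cases a with
        | bot => exact h6 0
        | eq u v => exact hH2 u v (funext fun c => h6 c)
        | rel Q t =>
          cases Q with
          | arc => exact hH3 (t 0) (t 1) (fun c => h6 c)
      exact h4
    have h5 := f.map_rel' ArcRel.arc _ h3
    exact h5

end

end Pool.Agent.H17.UG
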