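import Mathlib
import Pool.Agent.H17.UG.Defs
import Pool.Agent.H17.UG.FB2
import Pool.Agent.H17.UG.K3
import Pool.Agent.H17.DG.Main

set_option autoImplicit false

/-!
# The reduction to undirected graphs
-/

namespace Pool.Agent.H17.UG

open FirstOrder FirstOrder.Language Pool.Agent.H74.Stub Set
open Pool.Agent.H17.DG (Dig digStr ArcRel IsHomo InScope NoAlgebraicity K3 finRel_dig
  ppConstructs_trans TournamentReduction)

theorem collapse_iff {K X : Type} {R : K → K → Prop} (F : X → X → Prop) :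
    (∃ c : X → K, Gd R (Sym F) c) ↔ ∃ h : Quot (Lnk F) → K, IsHomo (ArcQ F) R h := by
  constructor
  · rintro ⟨c, hc⟩
    refine ⟨Quot.lift c ?_, ?_⟩
    · rintro x y ⟨h1, h2 | h2, h3⟩
      · exact (hc x y 0 2 h1 h2 h3).2.1 rfl rfl
      · exact (hc x y 1 2 h1 h2 h3).2.2 rfl rfl
    · rintro q q' ⟨x, y, rfl, rfl, h1, h2, h3⟩
      exact (hc x y 0 1 h1 h2 h3).1 rfl rfl
  · rintro ⟨h, hh⟩
    refine ⟨fun x => h (Quot.mk _ x), fun x y i j h1 h2 h3 => ⟨?_, ?_, ?_⟩⟩
    · rintro rfl rfl
      exact hh _ _ ⟨x, y, rfl, rfl, h1, h2, h3⟩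
    · rintro rfl rfl
      exact congrArg h (Quot.sound ⟨h1, Or.inl h2, h3⟩)
    · rintro rfl rfl
      exact congrArg h (Quot.sound ⟨h1, Or.inr h2, h3⟩)

theorem reductionU (L : FirstOrder.Language.{0, 0}) (A : Type) [L.Structure A]
    (hA : InScope L A) :
    ∃ (G : Type) (E : G → G → Prop), GraphTemplate G E ∧
      @PPConstructs Dig G (digStr E) L A _ ∧
      (@PPConstructs Dig G (digStr E) Dig (Fin 3) K3 ↔ @PPConstructs L A _ Dig (Fin 3) K3) ∧
      GraphReduction G E L A := by
  classical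
  obtain ⟨K, R, ⟨hsc, -, hasym, -, -⟩, hppA, hK3, m, l, htr⟩ := DG.reduction 0 L A hA
  obtain ⟨-, hcount, hne, LB, sB, hLB, hB, hFB, hR⟩ := hsc
  have hrelB := hLB.1
  have hrelA := hA.1.1
  obtain ⟨G, hG, C, hC⟩ := exists_isGenU K R
  have hno := noAlgU hC
  obtain ⟨g, -, -⟩ := hC.reps R id (fun _ _ h => h)
  have hGne : Nonempty G := ⟨g (Classical.arbitrary K)⟩
  have hinf : Infinite G := by
    obtain ⟨x⟩ := hGne
    have h1 := hno ∅ x (by simp)
    exact Set.infinite_univ_iff.1 (h1.mono (subset_univ _))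
  have hpp : @PPConstructs Dig G (digStr C.E) Dig K (digStr R) := ppConstructs_dig hC
  have hppA' : @PPConstructs Dig G (digStr C.E) L A _ := by
    let _ := digStr C.E
    let _ := digStr R
    exact ppConstructs_trans hpp hppA
  refine ⟨G, C.E, ⟨?_, hinf, C.symm, irreflU hC.good (fun a h => hasym a a h h), hno⟩, hppA',
    ?_, ?_⟩
  · let _ := digStr C.E
    exact ⟨finRel_dig, hG, hGne, LU LB, strU LB C, finRel_LU hLB, homogU hB hC hR,
      finitelyBoundedU hLB hB hFB hC hR, reductU⟩
  · constructor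
    · intro h
      exact hK3.1 (k3_of_genericU hC h)
    · intro h
      let _ := digStr C.E
      let _ := K3
      exact ppConstructs_trans hppA' h
  · refine ⟨m, l.map (Atom.map (fun p => p 0)), fun X _ F => ?_⟩
    have : Countable X := Finite.to_countable
    have h1 : (∃ h : X → G, IsHomo F C.E h) ↔ ∃ h : Quot (Lnk F) → K, IsHomo (ArcQ F) R h :=
      (hC.csp_iff F).trans (collapse_iff F)
    rw [h1, htr]
    refine and_congr_right fun _ => ?_
    constructor
    · rintro ⟨c, hc⟩
      refine ⟨fun q => c (fun _ => q), fun x hx a ha => ?_⟩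
      obtain ⟨b, hb, rfl⟩ := List.mem_map.1 ha
      rw [Atom.holds_map]
      have h2 := hc x hx b hb
      have e : (fun p : Fin (0 + 1) → Fin m => c (fun _ => x (p 0))) =
          fun p => c (fun i => x (p i)) := by
        funext p
        congr 1
        funext i
        have h3 : i = 0 := Fin.ext (by omega)
        rw [h3]
      rw [← e] at h2
      exact h2
    · rintro ⟨c, hc⟩
      refine ⟨fun q => c (q 0), fun x hx a ha => ?_⟩
      have h2 := hc x hx (Atom.map (fun p => p 0) a) (List.mem_map.2 ⟨a, ha, rfl⟩)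
      rw [Atom.holds_map] at h2
      exact h2

end Pool.Agent.H17.UG
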